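import Pool.Agent.Q19.LC.Eval

/-!
Chains `x ⊗ e i ≺ y ⊗ e (i+1)`: strict Klimesh-Turgut inequalities for positive exponents.
-/

namespace Pool.Agent.Q19.LC

open Multiset Filter Topology

structure Chain (x y : Multiset ℝ) (e : ℕ → Multiset ℝ) : Prop where
  good : ∀ i, Good (e i)
  sum_one : ∀ i, (e i).sum = 1
  step : ∀ i τ, W (mulM x (e i)) τ ≤ W (mulM y (e (i + 1))) τ

/-- power sums -/
noncomputable def pw (r : ℝ) (u : Multiset ℝ) : ℝ := (u.map (fun a => a ^ r)).sum

lemma Good.mulM {u v : Multiset ℝ} (hu : Good u) (hv : Good v) : Good (mulM u v) := by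
  intro c hc
  rw [mem_mulM] at hc
  obtain ⟨a, ha, b, hb, rfl⟩ := hc
  exact ⟨mul_pos (hu a ha).1 (hv b hb).1, mul_le_one₀ (hu a ha).2 (hv b hb).1.le (hv b hb).2⟩

lemma pw_mulM (r : ℝ) (u v : Multiset ℝ) (hu : Good u) (hv : Good v) :
    pw r (mulM u v) = pw r u * pw r v := by
  unfold pw
  rw [sum_map_mulM]
  have : ∀ b ∈ v, (u.map (fun a => (a * b) ^ r)).sum = (u.map (fun a => a ^ r)).sum * b ^ r := by
    intro b hb
    rw [← Multiset.sum_map_mul_right]
    congr 1
    apply Multiset.map_congr rfl
    intro a ha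
    exact Real.mul_rpow (hu a ha).1.le (hv b hb).1.le
  rw [Multiset.map_congr rfl this, Multiset.sum_map_mul_left]

lemma J_eq_pw (r : ℝ) (h0 : r ≠ 0) (h1 : r ≠ 1) (u : Multiset ℝ) :
    J r u = pw r u / (r * (r - 1)) := by
  unfold J pw
  have : H r = fun a => a ^ r / (r * (r - 1)) := by
    funext a; simp [H, h0, h1]
  rw [this, Multiset.sum_map_div]

lemma pw_eq_J (r : ℝ) (h0 : r ≠ 0) (h1 : r ≠ 1) (u : Multiset ℝ) :
    pw r u = (r * (r - 1)) * J r u := by
  rw [J_eq_pw r h0 h1]
  have : r - 1 ≠ 0 := sub_ne_zero.2 h1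
  field_simp

lemma J_mulM (r : ℝ) (h0 : r ≠ 0) (h1 : r ≠ 1) (u v : Multiset ℝ) (hu : Good u) (hv : Good v) :
    J r (mulM u v) = J r u * pw r v := by
  rw [J_eq_pw r h0 h1, J_eq_pw r h0 h1, pw_mulM r u v hu hv]
  ring

lemma J_one_mulM (u v : Multiset ℝ) (hu : Good u) (hv : Good v) (su : u.sum = 1)
    (sv : v.sum = 1) : J 1 (mulM u v) = J 1 u + J 1 v := by
  unfold J
  rw [sum_map_mulM]
  have : ∀ b ∈ v, (u.map (fun a => H 1 (a * b))).sum
      = (u.map (H 1)).sum * b + H 1 b := by
    intro b hb
    have h1 : ∀ a ∈ u, H 1 (a * b) = H 1 a * b + a * H 1 b := by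
      intro a ha
      simp only [H, one_ne_zero, if_false, if_true]
      rw [Real.log_mul (hu a ha).1.ne' (hv b hb).1.ne']
      ring
    rw [Multiset.map_congr rfl h1, Multiset.sum_map_add, Multiset.sum_map_mul_right,
      Multiset.sum_map_mul_right, Multiset.map_id', su, one_mul]
  rw [Multiset.map_congr rfl this, Multiset.sum_map_add, Multiset.sum_map_mul_left,
    Multiset.map_id', sv, mul_one]

lemma J_zero_mulM (u v : Multiset ℝ) (hu : Good u) (hv : Good v) :
    J 0 (mulM u v) = v.card * J 0 u + u.card * J 0 v := by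
  unfold J
  rw [sum_map_mulM]
  have : ∀ b ∈ v, (u.map (fun a => H 0 (a * b))).sum
      = (u.map (H 0)).sum + u.card * H 0 b := by
    intro b hb
    have h1 : ∀ a ∈ u, H 0 (a * b) = H 0 a + H 0 b := by
      intro a ha
      simp only [H, if_true]
      rw [Real.log_mul (hu a ha).1.ne' (hv b hb).1.ne']
      ring
    rw [Multiset.map_congr rfl h1, Multiset.sum_map_add]
    simp
  rw [Multiset.map_congr rfl this, Multiset.sum_map_add, Multiset.sum_map_mul_left]
  simp

lemma pw_nonneg (r : ℝ) (u : Multiset ℝ) (hu : Good u) : 0 ≤ pw r u := by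
  unfold pw
  apply Multiset.sum_nonneg
  intro x hx
  rw [Multiset.mem_map] at hx
  obtain ⟨a, ha, rfl⟩ := hx
  exact Real.rpow_nonneg (hu a ha).1.le r

lemma le_pw (r : ℝ) (u : Multiset ℝ) (hu : Good u) (a : ℝ) (ha : a ∈ u) : a ^ r ≤ pw r u := by
  unfold pw
  apply Multiset.single_le_sum
  · intro x hx
    rw [Multiset.mem_map] at hx
    obtain ⟨b, hb, rfl⟩ := hx
    exact Real.rpow_nonneg (hu b hb).1.le r
  · exact Multiset.mem_map_of_mem _ ha

lemma pw_pos (r : ℝ) (u : Multiset ℝ) (hu : Good u) (h : u ≠ 0) : 0 < pw r u := by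
  obtain ⟨a, ha⟩ := Multiset.exists_mem_of_ne_zero h
  exact lt_of_lt_of_le (Real.rpow_pos_of_pos (hu a ha).1 r) (le_pw r u hu a ha)

lemma pw_le_one (r : ℝ) (hr : 1 ≤ r) (u : Multiset ℝ) (hu : Good u) (su : u.sum = 1) :
    pw r u ≤ 1 := by
  rw [← su]
  unfold pw
  conv_rhs => rw [← Multiset.map_id' u]
  apply Multiset.sum_map_le_sum_map
  intro a ha
  calc a ^ r ≤ a ^ (1 : ℝ) := Real.rpow_le_rpow_of_exponent_ge (hu a ha).1 (hu a ha).2 hr
    _ = a := Real.rpow_one a

lemma ne_zero_of_sum {u : Multiset ℝ} (su : u.sum = 1) : u ≠ 0 := by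
  rintro rfl
  simp at su

/-- the loss in step `i` -/
noncomputable def loss (x y : Multiset ℝ) (e : ℕ → Multiset ℝ) (r : ℝ) (i : ℕ) : ℝ :=
  J r (mulM y (e (i + 1))) - J r (mulM x (e i))

section

variable {x y : Multiset ℝ} {e : ℕ → Multiset ℝ}

lemma loss_ge (hx : Good x) (hy : Good y) (sx : x.sum = 1) (sy : y.sum = 1)
    (h : Chain x y e) (r : ℝ) (i : ℕ)
    (hr : 0 < r ∨ (mulM x (e i)).card = (mulM y (e (i + 1))).card) : 0 ≤ loss x y e r i := by
  apply loss_nonneg _ _ (hx.mulM (h.good i)) (hy.mulM (h.good (i + 1))) _ (h.step i) r hr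
  rw [sum_mulM, sum_mulM, h.sum_one, h.sum_one, sx, sy]

lemma loss_mono (hx : Good x) (hy : Good y) (sx : x.sum = 1) (sy : y.sum = 1)
    (h : Chain x y e) (r s : ℝ) (i : ℕ)
    (hr : 0 < r ∨ (mulM x (e i)).card = (mulM y (e (i + 1))).card) (hrs : r ≤ s) :
    loss x y e s i ≤ loss x y e r i := by
  apply loss_anti _ _ (hx.mulM (h.good i)) (hy.mulM (h.good (i + 1))) _ (h.step i) r s hr hrs
  rw [sum_mulM, sum_mulM, h.sum_one, h.sum_one, sx, sy]

/-- the contradiction: bounded total loss at an exponent `s > 1` where the power sum of `x` is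
smaller, and power sums of the catalysts bounded away from zero -/
lemma no_decay (hx : Good x) (hy : Good y) (h : Chain x y e) (s : ℝ) (hs : 1 < s)
    (hlt : pw s x < pw s y) (C : ℝ) (hC : ∀ n, ∑ i ∈ Finset.range n, loss x y e s i ≤ C)
    (c : ℝ) (hc : 0 < c) (hce : ∀ i, c ≤ pw s (e i)) : False := by
  have hs0 : s ≠ 0 := by linarith
  have hs1 : s ≠ 1 := by linarith
  have hk : 0 < s * (s - 1) := mul_pos (by linarith) (by linarith)
  have h1 : ∀ i, (s * (s - 1)) * loss x y e s i
      = pw s y * pw s (e (i + 1)) - pw s x * pw s (e i) := by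
    intro i
    unfold loss
    rw [mul_sub, ← pw_eq_J s hs0 hs1, ← pw_eq_J s hs0 hs1, pw_mulM s _ _ hy (h.good _),
      pw_mulM s _ _ hx (h.good _)]
  have h2 : ∀ n : ℕ, ∑ i ∈ Finset.range n, (s * (s - 1)) * loss x y e s i
      = (pw s y - pw s x) * ∑ i ∈ Finset.range n, pw s (e i)
        + pw s y * (pw s (e n) - pw s (e 0)) := by
    intro n
    induction n with
    | zero => simp
    | succ n ih =>
      rw [Finset.sum_range_succ, ih, h1, Finset.sum_range_succ]
      ring
  have h3 : ∀ n : ℕ, (pw s y - pw s x) * (n * c)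
      ≤ (s * (s - 1)) * C + pw s y * pw s (e 0) := by
    intro n
    have h4 := h2 n
    rw [← Finset.mul_sum] at h4
    have h5 := mul_le_mul_of_nonneg_left (hC n) hk.le
    have h6 : (n : ℝ) * c ≤ ∑ i ∈ Finset.range n, pw s (e i) := by
      have := Finset.card_nsmul_le_sum (Finset.range n) (fun i => pw s (e i)) c
        (fun i _ => hce i)
      simpa using this
    have h7 := mul_le_mul_of_nonneg_left h6 (by linarith : 0 ≤ pw s y - pw s x)
    have h8 : 0 ≤ pw s y * pw s (e n) :=
      mul_nonneg (pw_nonneg s y hy) (pw_nonneg s _ (h.good n))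
    nlinarith
  have h9 : 0 < (pw s y - pw s x) * c := mul_pos (by linarith) hc
  obtain ⟨n, hn⟩ := exists_nat_gt (((s * (s - 1)) * C + pw s y * pw s (e 0))
    / ((pw s y - pw s x) * c))
  rw [div_lt_iff₀ h9] at hn
  have := h3 n
  nlinarith

/-- power sums of `x` do not exceed those of `y` -/
lemma pw_le_of_chain (hx : Good x) (hy : Good y) (sx : x.sum = 1) (sy : y.sum = 1)
    (h : Chain x y e) (s : ℝ) (hs : 1 < s) : pw s x ≤ pw s y := by
  by_contra hcon
  push Not at hcon
  have hs0 : s ≠ 0 := by linarith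
  have hs1 : s ≠ 1 := by linarith
  have hk : 0 < s * (s - 1) := mul_pos (by linarith) (by linarith)
  have hy0 : 0 < pw s y := pw_pos s y hy (ne_zero_of_sum sy)
  have h1 : ∀ i, pw s x * pw s (e i) ≤ pw s y * pw s (e (i + 1)) := by
    intro i
    have h2 := loss_ge hx hy sx sy h s i (Or.inl (by linarith))
    have h3 : (s * (s - 1)) * loss x y e s i
        = pw s y * pw s (e (i + 1)) - pw s x * pw s (e i) := by
      unfold loss
      rw [mul_sub, ← pw_eq_J s hs0 hs1, ← pw_eq_J s hs0 hs1, pw_mulM s _ _ hy (h.good _),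
        pw_mulM s _ _ hx (h.good _)]
    have := mul_nonneg hk.le h2
    linarith
  have h4 : ∀ n : ℕ, (pw s x / pw s y) ^ n * pw s (e 0) ≤ pw s (e n) := by
    intro n
    induction n with
    | zero => simp
    | succ n ih =>
      rw [pow_succ]
      have h5 : pw s x / pw s y * pw s (e n) ≤ pw s (e (n + 1)) := by
        rw [div_mul_eq_mul_div, div_le_iff₀ hy0]
        linarith [h1 n]
      have hxy : 0 ≤ pw s x / pw s y := div_nonneg (by linarith) hy0.le
      calc (pw s x / pw s y) ^ n * (pw s x / pw s y) * pw s (e 0)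
          = pw s x / pw s y * ((pw s x / pw s y) ^ n * pw s (e 0)) := by ring
        _ ≤ pw s x / pw s y * pw s (e n) := mul_le_mul_of_nonneg_left ih hxy
        _ ≤ _ := h5
  have h6 : 1 < pw s x / pw s y := by rw [lt_div_iff₀ hy0]; linarith
  have hp0 : 0 < pw s (e 0) := pw_pos s _ (h.good 0) (ne_zero_of_sum (h.sum_one 0))
  obtain ⟨n, hn⟩ := pow_unbounded_of_one_lt (1 / pw s (e 0)) h6
  have h7 := h4 n
  have h8 := pw_le_one s hs.le _ (h.good n) (h.sum_one n)
  rw [div_lt_iff₀ hp0] at hn
  linarith

/-- existence of an entry with a property, from an average -/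
lemma exists_entry (u : Multiset ℝ) (hu : Good u) (su : u.sum = 1) (g : ℝ → ℝ) (C : ℝ)
    (h : C ≤ (u.map (fun a => a * g a)).sum) : ∃ a ∈ u, C ≤ g a := by
  by_contra hcon
  push Not at hcon
  have h1 : (u.map (fun a => a * g a)).sum < (u.map (fun a => a * C)).sum := by
    apply Multiset.sum_lt_sum_of_nonempty (ne_zero_of_sum su)
    intro a ha
    exact mul_lt_mul_of_pos_left (hcon a ha) (hu a ha).1
  rw [Multiset.sum_map_mul_right, Multiset.map_id', su, one_mul] at h1
  linarith

lemma telescope (f : ℕ → ℝ) (g : ℕ → ℝ) (k : ℝ) (h : ∀ i, f i ≤ k * (g (i + 1) - g i)) (n : ℕ) :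
    ∑ i ∈ Finset.range n, f i ≤ k * (g n - g 0) := by
  induction n with
  | zero => simp
  | succ n ih =>
    rw [Finset.sum_range_succ]
    have := h n
    nlinarith

/-- strict inequalities for positive exponents -/
theorem strict_pos (hx : Good x) (hy : Good y) (sx : x.sum = 1) (sy : y.sum = 1)
    (h : Chain x y e) (hlarge : ∀ A : ℝ, ∃ s : ℝ, A ≤ s ∧ pw s x < pw s y) (r : ℝ) (hr : 0 < r) :
    J r x < J r y := by
  by_contra hcon
  push Not at hcon
  have hx0 := ne_zero_of_sum sx
  have hnn : ∀ i, 0 ≤ loss x y e r i := fun i => loss_ge hx hy sx sy h r i (Or.inl hr)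
  -- two facts
  obtain ⟨C, hC, c, hc, hce⟩ : ∃ C : ℝ, (∀ n, ∑ i ∈ Finset.range n, loss x y e r i ≤ C) ∧
      ∃ c : ℝ, 0 < c ∧ ∀ i, ∃ a ∈ e i, c ≤ a := by
    by_cases h1 : r = 1
    · subst h1
      have hl : ∀ i, loss x y e 1 i ≤ 1 * (J 1 (e (i + 1)) - J 1 (e i)) := by
        intro i
        unfold loss
        rw [J_one_mulM _ _ hy (h.good _) sy (h.sum_one _),
          J_one_mulM _ _ hx (h.good _) sx (h.sum_one _)]
        linarith
      have hmono : ∀ n, J 1 (e 0) ≤ J 1 (e n) := by
        intro n
        induction n with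
        | zero => exact le_refl _
        | succ n ih =>
          have := hl n
          have := hnn n
          linarith
      have hneg : ∀ n, J 1 (e n) ≤ 0 := by
        intro n
        unfold J
        have h0 : ((e n).map (H 1)).sum ≤ ((e n).map (fun _ => (0 : ℝ))).sum := by
          apply Multiset.sum_map_le_sum_map
          intro a ha
          simp only [H, one_ne_zero, if_false, if_true]
          exact mul_nonpos_of_nonneg_of_nonpos (h.good n a ha).1.le
            (Real.log_nonpos (h.good n a ha).1.le (h.good n a ha).2)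
        simpa using h0
      refine ⟨-J 1 (e 0), fun n => ?_, Real.exp (J 1 (e 0)), Real.exp_pos _, fun i => ?_⟩
      · have := telescope (loss x y e 1) (fun i => J 1 (e i)) 1 hl n
        have := hneg n
        linarith
      · obtain ⟨a, ha, hla⟩ := exists_entry (e i) (h.good i) (h.sum_one i) Real.log (J 1 (e 0)) (by
          refine (hmono i).trans (le_of_eq ?_)
          unfold J
          congr 1
          apply Multiset.map_congr rfl
          intro a _
          simp [H])
        refine ⟨a, ha, ?_⟩
        rw [← Real.exp_log (h.good i a ha).1]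
        exact Real.exp_le_exp.2 hla
    · have h0 : r ≠ 0 := hr.ne'
      have hl : ∀ i, loss x y e r i ≤ J r x * (pw r (e (i + 1)) - pw r (e i)) := by
        intro i
        unfold loss
        rw [J_mulM r h0 h1 _ _ hy (h.good _), J_mulM r h0 h1 _ _ hx (h.good _)]
        have := mul_le_mul_of_nonneg_right hcon (pw_nonneg r _ (h.good (i + 1)))
        linarith
      have htel := telescope (loss x y e r) (fun i => pw r (e i)) (J r x) hl
      have hpx : 0 < pw r x := pw_pos r x hx hx0
      have hp0 : 0 < pw r (e 0) := pw_pos r _ (h.good 0) (ne_zero_of_sum (h.sum_one 0))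
      rcases lt_or_gt_of_ne h1 with hlt | hgt
      · -- r < 1
        have hJ : J r x < 0 := by
          rw [J_eq_pw r h0 h1]
          exact div_neg_of_pos_of_neg hpx (mul_neg_of_pos_of_neg hr (by linarith))
        have hanti : ∀ n, pw r (e n) ≤ pw r (e 0) := by
          intro n
          induction n with
          | zero => exact le_refl _
          | succ n ih =>
            have h2 := (hnn n).trans (hl n)
            have : pw r (e (n + 1)) - pw r (e n) ≤ 0 := by
              by_contra hh
              push Not at hh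
              have := mul_neg_of_neg_of_pos hJ hh
              linarith
            linarith
        refine ⟨-(J r x * pw r (e 0)), fun n => ?_, (pw r (e 0)) ^ (-(1 - r)⁻¹), ?_, fun i => ?_⟩
        · have h2 := htel n
          have h3 := mul_nonneg_of_nonpos_of_nonpos hJ.le (by
            have := pw_nonneg r _ (h.good n); linarith : -pw r (e n) ≤ 0)
          linarith
        · exact Real.rpow_pos_of_pos hp0 _
        · obtain ⟨a, ha, hla⟩ := exists_entry (e i) (h.good i) (h.sum_one i)
            (fun a => - a ^ (r - 1)) (-pw r (e 0)) (by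
            have h3 : ((e i).map (fun a => a * -(a ^ (r - 1)))).sum = - pw r (e i) := by
              unfold pw
              rw [← Multiset.sum_map_neg]
              congr 1
              apply Multiset.map_congr rfl
              intro a ha
              have h4 := Real.rpow_add (h.good i a ha).1 1 (r - 1)
              rw [Real.rpow_one] at h4
              have e5 : (1 : ℝ) + (r - 1) = r := by ring
              rw [e5] at h4
              rw [h4]
              ring
            rw [h3]
            have := hanti i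
            linarith)
          refine ⟨a, ha, ?_⟩
          have ha0 := (h.good i a ha).1
          have h5 : a ^ (r - 1) ≤ pw r (e 0) := by linarith
          have h6 : 0 < 1 - r := by linarith
          have h7 : (pw r (e 0)) ^ (-(1 - r)⁻¹) ≤ (a ^ (r - 1)) ^ (-(1 - r)⁻¹) :=
            Real.rpow_le_rpow_of_nonpos (Real.rpow_pos_of_pos ha0 _) h5 (by
              have := inv_pos.2 h6; linarith)
          rw [← Real.rpow_mul ha0.le] at h7
          have h8 : (r - 1) * (-(1 - r)⁻¹) = 1 := by
            have : (1 - r) * (1 - r)⁻¹ = 1 := mul_inv_cancel₀ h6.ne'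
            linear_combination this
          rwa [h8, Real.rpow_one] at h7
      · -- r > 1
        have hJ : 0 < J r x := by
          rw [J_eq_pw r h0 h1]
          exact div_pos hpx (mul_pos hr (by linarith))
        have hmono : ∀ n, pw r (e 0) ≤ pw r (e n) := by
          intro n
          induction n with
          | zero => exact le_refl _
          | succ n ih =>
            have h2 := (hnn n).trans (hl n)
            have : 0 ≤ pw r (e (n + 1)) - pw r (e n) := by
              by_contra hh
              push Not at hh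
              have := mul_neg_of_pos_of_neg hJ hh
              linarith
            linarith
        refine ⟨J r x, fun n => ?_, (pw r (e 0)) ^ ((r - 1)⁻¹), ?_, fun i => ?_⟩
        · have h2 := htel n
          have h3 := pw_le_one r hgt.le _ (h.good n) (h.sum_one n)
          have h4 : J r x * (pw r (e n) - pw r (e 0)) ≤ J r x * 1 :=
            mul_le_mul_of_nonneg_left (by linarith) hJ.le
          linarith
        · exact Real.rpow_pos_of_pos hp0 _
        · obtain ⟨a, ha, hla⟩ := exists_entry (e i) (h.good i) (h.sum_one i)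
            (fun a => a ^ (r - 1)) (pw r (e 0)) (by
            refine (hmono i).trans (le_of_eq ?_)
            unfold pw
            congr 1
            apply Multiset.map_congr rfl
            intro a ha
            have h4 := Real.rpow_add (h.good i a ha).1 1 (r - 1)
            rw [Real.rpow_one] at h4
            rw [← h4]
            congr 1
            ring)
          refine ⟨a, ha, ?_⟩
          have ha0 := (h.good i a ha).1
          have h6 : 0 < r - 1 := by linarith
          have h7 : (pw r (e 0)) ^ ((r - 1)⁻¹) ≤ (a ^ (r - 1)) ^ ((r - 1)⁻¹) :=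
            Real.rpow_le_rpow hp0.le hla (inv_pos.2 h6).le
          rw [← Real.rpow_mul ha0.le, mul_inv_cancel₀ h6.ne', Real.rpow_one] at h7
          exact h7
  obtain ⟨s, hs, hlt⟩ := hlarge (max 2 r)
  have hs2 : 2 ≤ s := (le_max_left _ _).trans hs
  have hsr : r ≤ s := (le_max_right _ _).trans hs
  apply no_decay hx hy h s (by linarith) hlt C (fun n => ?_) (c ^ s) (Real.rpow_pos_of_pos hc s)
    (fun i => ?_)
  · refine le_trans ?_ (hC n)
    apply Finset.sum_le_sum
    intro i _
    exact loss_mono hx hy sx sy h r s i (Or.inl hr) hsr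
  · obtain ⟨a, ha, hca⟩ := hce i
    exact (Real.rpow_le_rpow hc.le hca (by linarith)).trans (le_pw s _ (h.good i) a ha)

end

end Pool.Agent.Q19.LC
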