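import Pool.Agent.Q19.LC.ChainA

/-!
Chains `x ⊗ e i ≺ y ⊗ e (i+1)`: extremal entries, bounded chains (ultrafilter limit) and
strict inequalities for nonpositive exponents.
-/

namespace Pool.Agent.Q19.LC

open Multiset Filter Topology

lemma exists_max (u : Multiset ℝ) (h : u ≠ 0) : ∃ m ∈ u, ∀ a ∈ u, a ≤ m := by
  obtain ⟨a0, ha0⟩ := Multiset.exists_mem_of_ne_zero h
  obtain ⟨m, hm, hmax⟩ := u.toFinset.exists_max_image id ⟨a0, Multiset.mem_toFinset.2 ha0⟩
  exact ⟨m, Multiset.mem_toFinset.1 hm, fun a ha => hmax a (Multiset.mem_toFinset.2 ha)⟩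

lemma exists_min (u : Multiset ℝ) (h : u ≠ 0) : ∃ m ∈ u, ∀ a ∈ u, m ≤ a := by
  obtain ⟨a0, ha0⟩ := Multiset.exists_mem_of_ne_zero h
  obtain ⟨m, hm, hmin⟩ := u.toFinset.exists_min_image id ⟨a0, Multiset.mem_toFinset.2 ha0⟩
  exact ⟨m, Multiset.mem_toFinset.1 hm, fun a ha => hmin a (Multiset.mem_toFinset.2 ha)⟩

lemma pw_le_card_mul (r : ℝ) (u : Multiset ℝ) (C : ℝ) (h : ∀ a ∈ u, a ^ r ≤ C) :
    pw r u ≤ u.card * C := by
  unfold pw
  have h1 : (u.map (fun a => a ^ r)).sum ≤ (u.map (fun _ => C)).sum :=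
    Multiset.sum_map_le_sum_map _ _ h
  simpa using h1

lemma pw_add (r : ℝ) (u v : Multiset ℝ) : pw r (u + v) = pw r u + pw r v := by
  unfold pw
  rw [Multiset.map_add, Multiset.sum_add]

/-- the top entry of `y` exceeds that of `x` -/
lemma max_lt (x y : Multiset ℝ) (hx : Good x) (hy : Good y) (hd : ∀ a ∈ x, ∀ b ∈ y, a ≠ b)
    (h : ∀ s : ℝ, 1 < s → pw s x ≤ pw s y) (X Y : ℝ) (hX : X ∈ x) (hXm : ∀ a ∈ x, a ≤ X)
    (hY : Y ∈ y) (hYm : ∀ a ∈ y, a ≤ Y) : X < Y := by
  by_contra hcon
  push Not at hcon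
  have hlt : Y < X := lt_of_le_of_ne hcon (hd X hX Y hY).symm
  have hY0 := (hy Y hY).1
  have hX0 := (hx X hX).1
  have h1 : 1 < X / Y := by rw [lt_div_iff₀ hY0]; linarith
  obtain ⟨n, hn⟩ := pow_unbounded_of_one_lt (y.card : ℝ) h1
  have h2 : (X / Y) ^ n ≤ (X / Y) ^ (n + 2) := pow_le_pow_right₀ h1.le (by omega)
  have h3 : X ^ ((n + 2 : ℕ) : ℝ) ≤ y.card * Y ^ ((n + 2 : ℕ) : ℝ) := by
    refine (le_pw _ x hx X hX).trans ((h _ (by push_cast; linarith [Nat.cast_nonneg (α := ℝ) n])).trans
      (pw_le_card_mul _ y _ (fun a ha => ?_)))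
    exact Real.rpow_le_rpow (hy a ha).1.le (hYm a ha) (Nat.cast_nonneg _)
  rw [Real.rpow_natCast, Real.rpow_natCast] at h3
  have h4 : (X / Y) ^ (n + 2) ≤ y.card := by
    rw [div_pow, div_le_iff₀ (by positivity)]
    exact h3
  linarith

lemma large_of_max (x y : Multiset ℝ) (hx : Good x) (hy : Good y)
    (X Y : ℝ) (hX : X ∈ x) (hXm : ∀ a ∈ x, a ≤ X)
    (hY : Y ∈ y) (hlt : X < Y) (A : ℝ) : ∃ s : ℝ, A ≤ s ∧ pw s x < pw s y := by
  have hY0 := (hy Y hY).1
  have hX0 := (hx X hX).1
  have h1 : 1 < Y / X := by rw [lt_div_iff₀ hX0]; linarith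
  obtain ⟨n, hn⟩ := pow_unbounded_of_one_lt (x.card : ℝ) h1
  obtain ⟨m, hm⟩ := exists_nat_ge A
  refine ⟨((n + m : ℕ) : ℝ), by push_cast; linarith [Nat.cast_nonneg (α := ℝ) n], ?_⟩
  have h2 : (Y / X) ^ n ≤ (Y / X) ^ (n + m) := pow_le_pow_right₀ h1.le (by omega)
  have h3 : (x.card : ℝ) < Y ^ (n + m) / X ^ (n + m) := by rw [← div_pow]; linarith
  rw [lt_div_iff₀ (by positivity)] at h3
  calc pw ((n + m : ℕ) : ℝ) x ≤ x.card * X ^ ((n + m : ℕ) : ℝ) := by
        apply pw_le_card_mul
        intro a ha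
        exact Real.rpow_le_rpow (hx a ha).1.le (hXm a ha) (Nat.cast_nonneg _)
    _ < Y ^ ((n + m : ℕ) : ℝ) := by rw [Real.rpow_natCast, Real.rpow_natCast]; exact h3
    _ ≤ _ := le_pw _ y hy Y hY

/-- the least entry of `y` is smaller than that of `x` -/
lemma min_lt (x y : Multiset ℝ) (hx : Good x) (hy : Good y) (hd : ∀ a ∈ x, ∀ b ∈ y, a ≠ b)
    (h : ∀ s : ℝ, s < 0 → pw s x ≤ pw s y) (X Y : ℝ) (hX : X ∈ x) (hXm : ∀ a ∈ x, X ≤ a)
    (hY : Y ∈ y) (hYm : ∀ a ∈ y, Y ≤ a) : Y < X := by
  by_contra hcon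
  push Not at hcon
  have hlt : X < Y := lt_of_le_of_ne hcon (hd X hX Y hY)
  have hY0 := (hy Y hY).1
  have hX0 := (hx X hX).1
  have h1 : 1 < Y / X := by rw [lt_div_iff₀ hX0]; linarith
  obtain ⟨n, hn⟩ := pow_unbounded_of_one_lt (y.card : ℝ) h1
  have h2 : (Y / X) ^ n ≤ (Y / X) ^ (n + 1) := pow_le_pow_right₀ h1.le (by omega)
  have h3 : X ^ (-((n + 1 : ℕ) : ℝ)) ≤ y.card * Y ^ (-((n + 1 : ℕ) : ℝ)) := by
    refine (le_pw _ x hx X hX).trans ((h _ (by push_cast; linarith [Nat.cast_nonneg (α := ℝ) n])).trans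
      (pw_le_card_mul _ y _ (fun a ha => ?_)))
    exact Real.rpow_le_rpow_of_nonpos hY0 (hYm a ha) (by
      have := Nat.cast_nonneg (α := ℝ) (n + 1); linarith)
  rw [Real.rpow_neg hX0.le, Real.rpow_neg hY0.le, Real.rpow_natCast, Real.rpow_natCast] at h3
  have h4 : (Y / X) ^ (n + 1) ≤ y.card := by
    rw [div_pow, div_le_iff₀ (by positivity)]
    have h5 := mul_le_mul_of_nonneg_right h3 (by positivity : (0 : ℝ) ≤ X ^ (n + 1) * Y ^ (n + 1))
    have h6 : (X ^ (n + 1))⁻¹ * (X ^ (n + 1) * Y ^ (n + 1)) = Y ^ (n + 1) := by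
      field_simp
    have h7 : (y.card : ℝ) * (Y ^ (n + 1))⁻¹ * (X ^ (n + 1) * Y ^ (n + 1))
        = y.card * X ^ (n + 1) := by
      field_simp
    rw [h6, h7] at h5
    exact h5
  linarith

/-- contribution of an entry `b` of the catalyst -/
noncomputable def wx (x : Multiset ℝ) (t b : ℝ) : ℝ :=
  (x.map (fun a => max (a * b * Real.exp t - 1) 0)).sum

lemma W_mulM_wx (x v : Multiset ℝ) (t : ℝ) : W (mulM x v) t = (v.map (wx x t)).sum := by
  unfold W
  rw [sum_map_mulM]
  rfl

lemma wx_zero (x : Multiset ℝ) (t : ℝ) : wx x t 0 = 0 := by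
  unfold wx
  apply Multiset.sum_eq_zero
  intro z hz
  rw [Multiset.mem_map] at hz
  obtain ⟨a, -, rfl⟩ := hz
  simp

lemma continuous_wx (x : Multiset ℝ) (t : ℝ) : Continuous (wx x t) := by
  unfold wx
  induction x using Multiset.induction_on with
  | empty => simpa using continuous_const
  | cons a u ih =>
    simp only [Multiset.map_cons, Multiset.sum_cons]
    exact (by fun_prop : Continuous (fun b : ℝ => max (a * b * Real.exp t - 1) 0)).add ih

lemma sum_map_filter_pos (g : ℝ → ℝ) (g0 : g 0 = 0) (u : Multiset ℝ) (hu : ∀ a ∈ u, 0 ≤ a) :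
    ((u.filter (fun a => 0 < a)).map g).sum = (u.map g).sum := by
  conv_rhs => rw [← Multiset.filter_add_not (fun a => 0 < a) u]
  rw [Multiset.map_add, Multiset.sum_add]
  have : ((u.filter (fun a => ¬ 0 < a)).map g).sum = 0 := by
    apply Multiset.sum_eq_zero
    intro x hx
    rw [Multiset.mem_map] at hx
    obtain ⟨a, ha, rfl⟩ := hx
    rw [Multiset.mem_filter] at ha
    have : a = 0 := le_antisymm (not_lt.1 ha.2) (hu a ha.1)
    rw [this, g0]
  rw [this, add_zero]

lemma exists_fin_map (s : Multiset ℝ) (N : ℕ) (h : s.card = N) :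
    ∃ f : Fin N → ℝ, (Finset.univ : Finset (Fin N)).val.map f = s := by
  induction s using Quot.inductionOn with
  | _ l =>
    change l.length = N at h
    subst h
    refine ⟨l.get, ?_⟩
    rw [Fin.univ_val_map]
    exact congrArg _ (List.ofFn_get l)

section

variable {x y : Multiset ℝ} {e : ℕ → Multiset ℝ}

lemma Chain.shift (h : Chain x y e) (k : ℕ) : Chain x y (fun j => e (k + j)) :=
  ⟨fun i => h.good _, fun i => h.sum_one _, fun i t => h.step (k + i) t⟩

lemma card_step (hx : Good x) (hy : Good y) (sx : x.sum = 1) (sy : y.sum = 1)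
    (h : Chain x y e) (i : ℕ) : y.card * (e (i + 1)).card ≤ x.card * (e i).card := by
  have := card_le_of_W (mulM x (e i)) (mulM y (e (i + 1))) (hx.mulM (h.good _))
    (hy.mulM (h.good _)) (by rw [sum_mulM, sum_mulM, h.sum_one, h.sum_one, sx, sy]) (h.step i)
  rwa [card_mulM, card_mulM] at this

/-- the rank of `y` is at most the rank of `x` -/
theorem card_le (hx : Good x) (hy : Good y) (sx : x.sum = 1) (sy : y.sum = 1)
    (h : Chain x y e) : y.card ≤ x.card := by
  by_contra hcon
  push Not at hcon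
  have hlt : ∀ i, (e (i + 1)).card < (e i).card := by
    intro i
    have h1 := card_step hx hy sx sy h i
    by_contra hh
    push Not at hh
    have hpos : 0 < (e i).card := Multiset.card_pos.2 (ne_zero_of_sum (h.sum_one i))
    have h2 : x.card * (e i).card < y.card * (e i).card := Nat.mul_lt_mul_of_pos_right hcon hpos
    have h3 : y.card * (e i).card ≤ y.card * (e (i + 1)).card := Nat.mul_le_mul_left _ hh
    omega
  have hle : ∀ i, (e i).card + i ≤ (e 0).card := by
    intro i
    induction i with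
    | zero => simp
    | succ i ih => have := hlt i; omega
  have := hle ((e 0).card + 1)
  omega

/-- a chain of constant rank with entries bounded below -/
theorem exists_bounded (hx : Good x) (hy : Good y) (sx : x.sum = 1) (sy : y.sum = 1)
    (h : Chain x y e) (hc : x.card = y.card) :
    ∃ (e' : ℕ → Multiset ℝ) (N : ℕ) (δ : ℝ), Chain x y e' ∧ (∀ i, (e' i).card = N) ∧ 0 < δ ∧
      ∀ i, ∀ a ∈ e' i, δ ≤ a := by
  classical
  have hP : ∃ n, ∃ e : ℕ → Multiset ℝ, Chain x y e ∧ (e 0).card = n := ⟨_, e, h, rfl⟩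
  obtain ⟨e1, he1, hN⟩ := Nat.find_spec hP
  have hmin : ∀ m < Nat.find hP, ¬ ∃ e : ℕ → Multiset ℝ, Chain x y e ∧ (e 0).card = m :=
    fun m hm => Nat.find_min hP hm
  set N := Nat.find hP
  have hcx : 0 < y.card := Multiset.card_pos.2 (ne_zero_of_sum sy)
  have hanti : ∀ i, (e1 (i + 1)).card ≤ (e1 i).card := by
    intro i
    have := card_step hx hy sx sy he1 i
    rw [hc] at this
    exact Nat.le_of_mul_le_mul_left this hcx
  have hcard : ∀ i, (e1 i).card = N := by
    intro i
    apply le_antisymm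
    · induction i with
      | zero => exact hN.le
      | succ i ih => exact (hanti i).trans ih
    · by_contra hh
      push Not at hh
      exact hmin _ hh ⟨_, he1.shift i, rfl⟩
  by_contra hcon
  push Not at hcon
  have hk : ∀ k : ℕ, ∃ i, ∃ a ∈ e1 i, a < 1 / ((k : ℝ) + 1) :=
    fun k => hcon e1 N (1 / ((k : ℝ) + 1)) he1 hcard (by positivity)
  choose ik ak hak hlt using hk
  choose f hf using fun i => exists_fin_map (e1 i) N (hcard i)
  have hfm : ∀ i l, f i l ∈ e1 i := by
    intro i l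
    rw [← hf i]
    exact Multiset.mem_map_of_mem _ (Finset.mem_univ l)
  have hf01 : ∀ i l, f i l ∈ Set.Icc (0 : ℝ) 1 := fun i l =>
    ⟨(he1.good i _ (hfm i l)).1.le, (he1.good i _ (hfm i l)).2⟩
  -- limits along an ultrafilter
  have hlim : ∀ (j : ℕ) (l : Fin N), ∃ z ∈ Set.Icc (0 : ℝ) 1,
      Tendsto (fun k => f (ik k + j) l) (hyperfilter ℕ : Filter ℕ) (𝓝 z) := by
    intro j l
    have := (isCompact_Icc (a := (0 : ℝ)) (b := 1)).ultrafilter_le_nhds
      ((hyperfilter ℕ).map (fun k => f (ik k + j) l)) (by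
        rw [Filter.le_principal_iff, Ultrafilter.coe_map, Filter.mem_map]
        exact Filter.univ_mem' fun k => hf01 _ _)
    obtain ⟨z, hz, hle⟩ := this
    exact ⟨z, hz, hle⟩
  choose z hz hzt using hlim
  -- limit multisets
  let Z : ℕ → Multiset ℝ := fun j => (Finset.univ : Finset (Fin N)).val.map (z j)
  have hZ0 : ∀ j, ∀ a ∈ Z j, 0 ≤ a ∧ a ≤ 1 := by
    intro j a ha
    rw [Multiset.mem_map] at ha
    obtain ⟨l, -, rfl⟩ := ha
    exact ⟨(hz j l).1, (hz j l).2⟩
  have hsumlim : ∀ (g : ℝ → ℝ), Continuous g → ∀ j,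
      Tendsto (fun k => ((e1 (ik k + j)).map g).sum) (hyperfilter ℕ : Filter ℕ)
        (𝓝 (((Z j).map g).sum)) := by
    intro g hg j
    have h1 : ∀ k, ((e1 (ik k + j)).map g).sum = ∑ l : Fin N, g (f (ik k + j) l) := by
      intro k
      rw [← hf, Multiset.map_map]
      rfl
    have h2 : ((Z j).map g).sum = ∑ l : Fin N, g (z j l) := by
      change ((Multiset.map (z j) _).map g).sum = _
      rw [Multiset.map_map]
      rfl
    simp only [h1]
    rw [h2]
    exact tendsto_finsetSum _ fun l _ => (hg.tendsto _).comp (hzt j l)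
  have hZsum : ∀ j, (Z j).sum = 1 := by
    intro j
    have h1 := hsumlim id continuous_id j
    simp only [Multiset.map_id] at h1
    have h2 : Tendsto (fun k => (e1 (ik k + j)).sum) (hyperfilter ℕ : Filter ℕ) (𝓝 1) := by
      simp only [he1.sum_one]
      exact tendsto_const_nhds
    exact tendsto_nhds_unique h1 h2
  let e2 : ℕ → Multiset ℝ := fun j => (Z j).filter (fun a => 0 < a)
  have he2 : Chain x y e2 := by
    refine ⟨fun j a ha => ?_, fun j => ?_, fun j t => ?_⟩
    · rw [Multiset.mem_filter] at ha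
      exact ⟨ha.2, (hZ0 j a ha.1).2⟩
    · have := sum_filter_pos (Z j) (fun a ha => (hZ0 j a ha).1)
      rw [hZsum] at this
      exact this
    · rw [W_mulM_wx, W_mulM_wx]
      change (((Z j).filter (fun a => 0 < a)).map _).sum
        ≤ (((Z (j + 1)).filter (fun a => 0 < a)).map _).sum
      rw [sum_map_filter_pos _ (wx_zero x t) _ (fun a ha => (hZ0 j a ha).1),
        sum_map_filter_pos _ (wx_zero y t) _ (fun a ha => (hZ0 (j + 1) a ha).1)]
      apply le_of_tendsto_of_tendsto' (hsumlim _ (continuous_wx x t) j)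
        (hsumlim _ (continuous_wx y t) (j + 1))
      intro k
      rw [← W_mulM_wx, ← W_mulM_wx]
      exact he1.step (ik k + j) t
  -- the first member has smaller rank
  have hprod : ∏ l : Fin N, z 0 l = 0 := by
    have h1 : Tendsto (fun k => ∏ l : Fin N, f (ik k + 0) l) (hyperfilter ℕ : Filter ℕ)
        (𝓝 (∏ l : Fin N, z 0 l)) := tendsto_finsetProd _ fun l _ => hzt 0 l
    have h2 : Tendsto (fun k => ∏ l : Fin N, f (ik k + 0) l) (hyperfilter ℕ : Filter ℕ)
        (𝓝 0) := by
      have h3 : Tendsto (fun k : ℕ => 1 / ((k : ℝ) + 1)) (hyperfilter ℕ : Filter ℕ) (𝓝 0) :=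
        tendsto_one_div_add_atTop_nhds_zero_nat.mono_left Nat.hyperfilter_le_atTop
      apply squeeze_zero _ _ h3
      · intro k
        exact Finset.prod_nonneg fun l _ => (hf01 _ _).1
      · intro k
        have h4 : ak k ∈ e1 (ik k) := hak k
        rw [← hf (ik k), Multiset.mem_map] at h4
        obtain ⟨l0, -, hl0⟩ := h4
        calc ∏ l : Fin N, f (ik k + 0) l
            = f (ik k + 0) l0 * ∏ l ∈ Finset.univ.erase l0, f (ik k + 0) l := by
              rw [Finset.mul_prod_erase _ _ (Finset.mem_univ l0)]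
          _ ≤ f (ik k + 0) l0 * 1 := by
              apply mul_le_mul_of_nonneg_left _ (hf01 _ _).1
              exact Finset.prod_le_one (fun l _ => (hf01 _ _).1) (fun l _ => (hf01 _ _).2)
          _ = ak k := by rw [mul_one]; exact hl0
          _ ≤ _ := (hlt k).le
    exact tendsto_nhds_unique h1 h2
  obtain ⟨l0, -, hl0⟩ := Finset.prod_eq_zero_iff.1 hprod
  have hcardlt : (e2 0).card < N := by
    have h1 : (e2 0).card + ((Z 0).filter (fun a => ¬ 0 < a)).card = N := by
      have h2 := congrArg Multiset.card (Multiset.filter_add_not (fun a => 0 < a) (Z 0))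
      rw [Multiset.card_add] at h2
      have h3 : (Z 0).card = N := by
        change (Multiset.map (z 0) _).card = N
        rw [Multiset.card_map]
        simp
      rw [h3] at h2
      exact h2
    have h4 : 0 < ((Z 0).filter (fun a => ¬ 0 < a)).card := by
      rw [Multiset.card_pos_iff_exists_mem]
      refine ⟨z 0 l0, ?_⟩
      rw [Multiset.mem_filter]
      refine ⟨Multiset.mem_map_of_mem _ (Finset.mem_univ l0), ?_⟩
      rw [hl0]
      exact lt_irrefl _
    omega
  exact hmin _ hcardlt ⟨e2, he2, rfl⟩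

/-- strict inequalities for nonpositive exponents if the ranks are equal -/
theorem strict_nonpos (hx : Good x) (hy : Good y) (sx : x.sum = 1) (sy : y.sum = 1)
    (h : Chain x y e) (hc : x.card = y.card) (h2 : pw 2 x < pw 2 y) (r : ℝ) (hr : r ≤ 0) :
    J r x < J r y := by
  by_contra hcon
  push Not at hcon
  obtain ⟨e', N, δ, he', hN, hδ, hδe⟩ := exists_bounded hx hy sx sy h hc
  have hcards : ∀ i, (mulM x (e' i)).card = (mulM y (e' (i + 1))).card := by
    intro i
    rw [card_mulM, card_mulM, hc, hN, hN]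
  have hNpos : 0 < N := by
    rw [← hN 0]; exact Multiset.card_pos.2 (ne_zero_of_sum (he'.sum_one 0))
  obtain ⟨C, hC⟩ : ∃ C : ℝ, ∀ n, ∑ i ∈ Finset.range n, loss x y e' r i ≤ C := by
    by_cases h0 : r = 0
    · subst h0
      have hl : ∀ i, loss x y e' 0 i ≤ x.card * (J 0 (e' (i + 1)) - J 0 (e' i)) := by
        intro i
        unfold loss
        rw [J_zero_mulM _ _ hy (he'.good _), J_zero_mulM _ _ hx (he'.good _), hN, hN, ← hc]
        have := mul_le_mul_of_nonneg_left hcon (Nat.cast_nonneg (α := ℝ) N)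
        linarith
      have hJ0 : ∀ i, 0 ≤ J 0 (e' i) := by
        intro i
        unfold J
        apply Multiset.sum_nonneg
        intro w hw
        rw [Multiset.mem_map] at hw
        obtain ⟨a, ha, rfl⟩ := hw
        simp only [H, if_true]
        have := Real.log_nonpos (he'.good i a ha).1.le (he'.good i a ha).2
        linarith
      have hJb : ∀ i, J 0 (e' i) ≤ N * (-Real.log δ) := by
        intro i
        unfold J
        have h3 : ((e' i).map (H 0)).sum ≤ ((e' i).map (fun _ => -Real.log δ)).sum := by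
          apply Multiset.sum_map_le_sum_map
          intro a ha
          simp only [H, if_true]
          have := Real.log_le_log hδ (hδe i a ha)
          linarith
        rw [Multiset.map_const', Multiset.sum_replicate, hN, nsmul_eq_mul] at h3
        exact h3
      refine ⟨x.card * (N * (-Real.log δ)), fun n => ?_⟩
      refine (telescope (loss x y e' 0) (fun i => J 0 (e' i)) x.card hl n).trans ?_
      apply mul_le_mul_of_nonneg_left _ (Nat.cast_nonneg _)
      have := hJ0 0
      have := hJb n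
      linarith
    · have hneg : r < 0 := lt_of_le_of_ne hr h0
      have h1 : r ≠ 1 := by linarith
      have hl : ∀ i, loss x y e' r i ≤ J r x * (pw r (e' (i + 1)) - pw r (e' i)) := by
        intro i
        unfold loss
        rw [J_mulM r h0 h1 _ _ hy (he'.good _), J_mulM r h0 h1 _ _ hx (he'.good _)]
        have := mul_le_mul_of_nonneg_right hcon (pw_nonneg r _ (he'.good (i + 1)))
        linarith
      have hJ : 0 ≤ J r x := by
        rw [J_eq_pw r h0 h1]
        exact div_nonneg (pw_nonneg r x hx) (mul_nonneg_of_nonpos_of_nonpos hr (by linarith))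
      refine ⟨J r x * (N * δ ^ r), fun n => ?_⟩
      refine (telescope (loss x y e' r) (fun i => pw r (e' i)) (J r x) hl n).trans ?_
      apply mul_le_mul_of_nonneg_left _ hJ
      have h3 := pw_nonneg r _ (he'.good 0)
      have h4 : pw r (e' n) ≤ N * δ ^ r := by
        rw [← hN n]
        apply pw_le_card_mul
        intro a ha
        exact Real.rpow_le_rpow_of_nonpos hδ (hδe n a ha) hr
      linarith
  apply no_decay hx hy he' 2 (by norm_num) h2 C (fun n => ?_) (δ ^ (2 : ℝ))
    (Real.rpow_pos_of_pos hδ _) (fun i => ?_)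
  · refine le_trans ?_ (hC n)
    apply Finset.sum_le_sum
    intro i _
    exact loss_mono hx hy sx sy he' r 2 i (Or.inr (hcards i)) (by linarith)
  · obtain ⟨a, ha⟩ := Multiset.exists_mem_of_ne_zero (ne_zero_of_sum (he'.sum_one i))
    exact (Real.rpow_le_rpow hδ.le (hδe i a ha) (by norm_num)).trans
      (le_pw _ _ (he'.good i) a ha)

end

end Pool.Agent.Q19.LC
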