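import Pool.Agent.Q19.LC.Maj

/-!
Evaluation of the truncated Laplace transform of `W u`.
-/

namespace Pool.Agent.Q19.LC

open Multiset Filter Topology intervalIntegral

/-- the normalized power function: second derivative `a^(r-2)` -/
noncomputable def H (r a : ℝ) : ℝ :=
  if r = 0 then -Real.log a else if r = 1 then a * Real.log a else a ^ r / (r * (r - 1))

noncomputable def J (r : ℝ) (u : Multiset ℝ) : ℝ := (u.map (H r)).sum

noncomputable def Pc (r T : ℝ) : ℝ :=
  if r = 0 then Real.exp T else if r = 1 then T - 1 else Real.exp ((1 - r) * T) / (1 - r)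

noncomputable def Qc (r T : ℝ) : ℝ := if r = 0 then -1 - T else Real.exp (-(r * T)) / r

noncomputable def G (r a t : ℝ) : ℝ :=
  if r = 0 then a * Real.exp t - t else if r = 1 then a * t + Real.exp (-t)
  else a * Real.exp ((1 - r) * t) / (1 - r) + Real.exp (-(r * t)) / r

lemma hasDerivAt_G (r a t : ℝ) :
    HasDerivAt (G r a) (Real.exp (-(r * t)) * (a * Real.exp t - 1)) t := by
  by_cases h0 : r = 0
  · subst h0
    have e : G 0 a = fun t => a * Real.exp t - t := by funext t; simp [G]
    rw [e]
    have h : HasDerivAt (fun t => a * Real.exp t - t) (a * Real.exp t - 1) t :=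
      ((Real.hasDerivAt_exp t).const_mul a).sub (hasDerivAt_id t)
    refine h.congr_deriv ?_
    rw [zero_mul, neg_zero, Real.exp_zero, one_mul]
  · by_cases h1 : r = 1
    · subst h1
      have e : G 1 a = fun t => a * t + Real.exp (-t) := by funext t; simp [G]
      rw [e]
      have h2 : HasDerivAt (fun t => a * t + Real.exp (-t)) (a * 1 + Real.exp (-t) * (-1)) t :=
        ((hasDerivAt_id t).const_mul a).add ((hasDerivAt_neg t).exp)
      refine h2.congr_deriv ?_
      have h : Real.exp (-t) * Real.exp t = 1 := by rw [← Real.exp_add]; simp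
      rw [one_mul]
      linear_combination (-a) * h
    · have e : G r a = fun t => a * Real.exp ((1 - r) * t) / (1 - r) + Real.exp (-(r * t)) / r := by
        funext t; simp [G, h0, h1]
      rw [e]
      have hr1 : (1 - r) ≠ 0 := sub_ne_zero.2 (Ne.symm h1)
      have d1 : HasDerivAt (fun t : ℝ => a * Real.exp ((1 - r) * t) / (1 - r))
          (a * (Real.exp ((1 - r) * t) * ((1 - r) * 1)) / (1 - r)) t :=
        (((hasDerivAt_id t).const_mul (1 - r)).exp.const_mul a).div_const (1 - r)
      have d2 : HasDerivAt (fun t : ℝ => Real.exp (-(r * t)) / r)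
          (Real.exp (-(r * t)) * (-(r * 1)) / r) t :=
        (((hasDerivAt_id t).const_mul r).neg.exp).div_const r
      refine (d1.add d2).congr_deriv ?_
      have : Real.exp ((1 - r) * t) = Real.exp (-(r * t)) * Real.exp t := by
        rw [← Real.exp_add]; congr 1; ring
      rw [this]
      field_simp
      ring

lemma eval_single (r a T : ℝ) (ha : 0 < a) (ha1 : a ≤ 1) (hT : -Real.log a ≤ T) :
    ∫ t in (0 : ℝ)..T, Real.exp (-(r * t)) * max (a * Real.exp t - 1) 0
      = H r a + a * Pc r T + Qc r T := by
  have hla : 0 ≤ -Real.log a := by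
    have := Real.log_nonpos ha.le ha1
    linarith
  have hc : Continuous (fun t : ℝ => Real.exp (-(r * t)) * max (a * Real.exp t - 1) 0) := by
    fun_prop
  rw [← integral_add_adjacent_intervals (hc.intervalIntegrable 0 (-Real.log a))
    (hc.intervalIntegrable (-Real.log a) T)]
  have h1 : ∫ t in (0 : ℝ)..(-Real.log a), Real.exp (-(r * t)) * max (a * Real.exp t - 1) 0
      = 0 := by
    have : ∫ t in (0 : ℝ)..(-Real.log a), Real.exp (-(r * t)) * max (a * Real.exp t - 1) 0
        = ∫ t in (0 : ℝ)..(-Real.log a), (0 : ℝ) := by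
      apply integral_congr
      intro t ht
      rw [Set.uIcc_of_le hla] at ht
      have h : Real.exp t ≤ a⁻¹ := by
        rw [← Real.exp_log (inv_pos.2 ha), Real.log_inv]
        exact Real.exp_le_exp.2 ht.2
      have h2 : a * Real.exp t ≤ 1 := by
        calc a * Real.exp t ≤ a * a⁻¹ := mul_le_mul_of_nonneg_left h ha.le
          _ = 1 := mul_inv_cancel₀ ha.ne'
      change Real.exp (-(r * t)) * max (a * Real.exp t - 1) 0 = 0
      rw [max_eq_right (by linarith), mul_zero]
    rw [this]
    simp
  have h2 : ∫ t in (-Real.log a)..T, Real.exp (-(r * t)) * max (a * Real.exp t - 1) 0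
      = G r a T - G r a (-Real.log a) := by
    have : ∫ t in (-Real.log a)..T, Real.exp (-(r * t)) * max (a * Real.exp t - 1) 0
        = ∫ t in (-Real.log a)..T, Real.exp (-(r * t)) * (a * Real.exp t - 1) := by
      apply integral_congr
      intro t ht
      rw [Set.uIcc_of_le hT] at ht
      have h : a⁻¹ ≤ Real.exp t := by
        rw [← Real.exp_log (inv_pos.2 ha), Real.log_inv]
        exact Real.exp_le_exp.2 ht.1
      have h2 : 1 ≤ a * Real.exp t := by
        calc (1 : ℝ) = a * a⁻¹ := (mul_inv_cancel₀ ha.ne').symm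
          _ ≤ a * Real.exp t := mul_le_mul_of_nonneg_left h ha.le
      change Real.exp (-(r * t)) * max (a * Real.exp t - 1) 0 = _
      rw [max_eq_left (by linarith)]
    rw [this]
    apply integral_eq_sub_of_hasDerivAt
    · intro t _
      exact hasDerivAt_G r a t
    · apply Continuous.intervalIntegrable
      fun_prop
  rw [h1, h2, zero_add]
  have hexp : Real.exp (-Real.log a) = a⁻¹ := by rw [Real.exp_neg, Real.exp_log ha]
  by_cases h0 : r = 0
  · subst h0
    simp only [G, H, Pc, Qc, if_true]
    rw [hexp, mul_inv_cancel₀ ha.ne']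
    ring
  · by_cases h1 : r = 1
    · subst h1
      simp only [G, H, Pc, Qc, if_true, one_ne_zero, if_false]
      rw [neg_neg, Real.exp_log ha, one_mul, div_one]
      ring
    · simp only [G, H, Pc, Qc, if_neg h0, if_neg h1]
      have hr1 : (1 - r) ≠ 0 := sub_ne_zero.2 (Ne.symm h1)
      have hr2 : (r - 1) ≠ 0 := sub_ne_zero.2 h1
      have e1 : a * Real.exp ((1 - r) * -Real.log a) = a ^ r := by
        have : Real.exp ((1 - r) * -Real.log a) = a ^ (r - 1) := by
          rw [Real.rpow_def_of_pos ha]; congr 1; ring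
        rw [this]
        have := Real.rpow_add ha 1 (r - 1)
        rw [Real.rpow_one] at this
        rw [← this]
        congr 1
        ring
      have e2 : Real.exp (-(r * -Real.log a)) = a ^ r := by
        rw [Real.rpow_def_of_pos ha]; congr 1; ring
      rw [e1, e2]
      have hsub : r - 1 = -(1 - r) := by ring
      rw [hsub]
      field_simp
      ring

/-- truncated Laplace transform of `W u` -/
noncomputable def F (u : Multiset ℝ) (r T : ℝ) : ℝ :=
  ∫ t in (0 : ℝ)..T, Real.exp (-(r * t)) * W u t

/-- all entries lie in `(0, 1]` -/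
def Good (u : Multiset ℝ) : Prop := ∀ a ∈ u, 0 < a ∧ a ≤ 1

lemma cont_expW (u : Multiset ℝ) (r : ℝ) :
    Continuous (fun t : ℝ => Real.exp (-(r * t)) * W u t) :=
  (by fun_prop : Continuous (fun t : ℝ => Real.exp (-(r * t)))).mul (continuous_W u)

lemma F_eval (u : Multiset ℝ) (hu : Good u) (r T : ℝ) (hT : ∀ a ∈ u, -Real.log a ≤ T) :
    F u r T = J r u + u.sum * Pc r T + u.card * Qc r T := by
  induction u using Multiset.induction_on with
  | empty =>
    simp [F, J, W]
  | cons a u ih =>
    have h1 := ih (fun b hb => hu b (Multiset.mem_cons_of_mem hb))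
      (fun b hb => hT b (Multiset.mem_cons_of_mem hb))
    have ha := hu a (Multiset.mem_cons_self a u)
    have h2 := eval_single r a T ha.1 ha.2 (hT a (Multiset.mem_cons_self a u))
    have h3 : F (a ::ₘ u) r T
        = (∫ t in (0 : ℝ)..T, Real.exp (-(r * t)) * max (a * Real.exp t - 1) 0) + F u r T := by
      unfold F
      rw [← intervalIntegral.integral_add]
      · apply integral_congr
        intro t _
        simp only [W, Multiset.map_cons, Multiset.sum_cons]
        ring
      · apply Continuous.intervalIntegrable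
        fun_prop
      · exact (cont_expW u r).intervalIntegrable _ _
    rw [h3, h2, h1]
    simp only [J, Multiset.map_cons, Multiset.sum_cons, Multiset.card_cons]
    push_cast
    ring

lemma exists_T (u : Multiset ℝ) : ∃ T0 : ℝ, 0 ≤ T0 ∧ ∀ T, T0 ≤ T → ∀ a ∈ u, -Real.log a ≤ T := by
  induction u using Multiset.induction_on with
  | empty => exact ⟨0, le_refl _, by simp⟩
  | cons a u ih =>
    obtain ⟨T0, h0, h⟩ := ih
    refine ⟨max T0 (-Real.log a), h0.trans (le_max_left _ _), fun T hT b hb => ?_⟩
    rw [Multiset.mem_cons] at hb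
    rcases hb with rfl | hb
    · exact (le_max_right _ _).trans hT
    · exact h T ((le_max_left _ _).trans hT) b hb

lemma Qc_tendsto (r : ℝ) (hr : 0 < r) : Tendsto (Qc r) atTop (𝓝 0) := by
  have e : Qc r = fun T => Real.exp (-(r * T)) / r := by
    funext T; simp [Qc, hr.ne']
  rw [e]
  have h1 : Tendsto (fun T : ℝ => r * T) atTop atTop := tendsto_id.const_mul_atTop hr
  have h2 := Real.tendsto_exp_neg_atTop_nhds_zero.comp h1
  have h3 := h2.div_const r
  simpa using h3

lemma F_sub_tendsto (u v : Multiset ℝ) (hu : Good u) (hv : Good v) (hs : u.sum = v.sum) (r : ℝ)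
    (hr : 0 < r ∨ u.card = v.card) :
    Tendsto (fun T => F v r T - F u r T) atTop (𝓝 (J r v - J r u)) := by
  obtain ⟨T1, -, h1⟩ := exists_T u
  obtain ⟨T2, -, h2⟩ := exists_T v
  have hev : ∀ᶠ T in atTop, J r v - J r u + ((v.card : ℝ) - u.card) * Qc r T
      = F v r T - F u r T := by
    filter_upwards [eventually_ge_atTop T1, eventually_ge_atTop T2] with T ht1 ht2
    rw [F_eval u hu r T (h1 T ht1), F_eval v hv r T (h2 T ht2), hs]
    ring
  apply Tendsto.congr' hev
  rcases hr with hr | hr
  · have := ((Qc_tendsto r hr).const_mul ((v.card : ℝ) - u.card)).const_add (J r v - J r u)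
    simpa using this
  · rw [hr]
    simp

lemma F_sub_eq (u v : Multiset ℝ) (r T : ℝ) :
    F v r T - F u r T = ∫ t in (0 : ℝ)..T, Real.exp (-(r * t)) * (W v t - W u t) := by
  unfold F
  rw [← intervalIntegral.integral_sub]
  · apply integral_congr
    intro t _
    ring
  · exact (cont_expW v r).intervalIntegrable _ _
  · exact (cont_expW u r).intervalIntegrable _ _

lemma cont_sub (u v : Multiset ℝ) (r : ℝ) :
    Continuous (fun t : ℝ => Real.exp (-(r * t)) * (W v t - W u t)) :=
  (by fun_prop : Continuous (fun t : ℝ => Real.exp (-(r * t)))).mul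
    ((continuous_W v).sub (continuous_W u))

/-- losses are nonnegative -/
lemma loss_nonneg (u v : Multiset ℝ) (hu : Good u) (hv : Good v) (hs : u.sum = v.sum)
    (hW : ∀ t, W u t ≤ W v t) (r : ℝ) (hr : 0 < r ∨ u.card = v.card) :
    0 ≤ J r v - J r u := by
  apply ge_of_tendsto (F_sub_tendsto u v hu hv hs r hr)
  filter_upwards [eventually_ge_atTop 0] with T hT
  rw [F_sub_eq]
  apply intervalIntegral.integral_nonneg hT
  intro t _
  exact mul_nonneg (Real.exp_pos _).le (sub_nonneg.2 (hW t))

/-- losses decrease with the exponent -/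
lemma loss_anti (u v : Multiset ℝ) (hu : Good u) (hv : Good v) (hs : u.sum = v.sum)
    (hW : ∀ t, W u t ≤ W v t) (r s : ℝ) (hr : 0 < r ∨ u.card = v.card) (hrs : r ≤ s) :
    J s v - J s u ≤ J r v - J r u := by
  have hs' : 0 < s ∨ u.card = v.card := by
    rcases hr with h | h
    · exact Or.inl (by linarith)
    · exact Or.inr h
  apply le_of_tendsto_of_tendsto (F_sub_tendsto u v hu hv hs s hs')
    (F_sub_tendsto u v hu hv hs r hr)
  filter_upwards [eventually_ge_atTop 0] with T hT
  rw [F_sub_eq, F_sub_eq]
  apply intervalIntegral.integral_mono_on hT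
  · exact (cont_sub u v s).intervalIntegrable _ _
  · exact (cont_sub u v r).intervalIntegrable _ _
  · intro t ht
    apply mul_le_mul_of_nonneg_right _ (sub_nonneg.2 (hW t))
    apply Real.exp_le_exp.2
    have := mul_le_mul_of_nonneg_right hrs ht.1
    linarith

/-- for large `τ` -/
lemma W_large (u : Multiset ℝ) (hu : Good u) (t : ℝ) (ht : ∀ a ∈ u, -Real.log a ≤ t) :
    W u t = u.sum * Real.exp t - u.card := by
  induction u using Multiset.induction_on with
  | empty => simp [W]
  | cons a u ih =>
    have h1 := ih (fun b hb => hu b (Multiset.mem_cons_of_mem hb))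
      (fun b hb => ht b (Multiset.mem_cons_of_mem hb))
    have ha := hu a (Multiset.mem_cons_self a u)
    have h : a⁻¹ ≤ Real.exp t := by
      rw [← Real.exp_log (inv_pos.2 ha.1), Real.log_inv]
      exact Real.exp_le_exp.2 (ht a (Multiset.mem_cons_self a u))
    have h2 : 1 ≤ a * Real.exp t := by
      calc (1 : ℝ) = a * a⁻¹ := (mul_inv_cancel₀ ha.1.ne').symm
        _ ≤ a * Real.exp t := mul_le_mul_of_nonneg_left h ha.1.le
    have h3 : W (a ::ₘ u) t = max (a * Real.exp t - 1) 0 + W u t := by
      simp only [W, Multiset.map_cons, Multiset.sum_cons]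
    rw [h3, h1, max_eq_left (by linarith), Multiset.sum_cons, Multiset.card_cons]
    push_cast
    ring

lemma W_small (u : Multiset ℝ) (hu : Good u) (t : ℝ) (ht : ∀ a ∈ u, t ≤ -Real.log a) :
    W u t = 0 := by
  unfold W
  apply Multiset.sum_eq_zero
  intro x hx
  rw [Multiset.mem_map] at hx
  obtain ⟨a, ha, rfl⟩ := hx
  have ha' := hu a ha
  have h : Real.exp t ≤ a⁻¹ := by
    rw [← Real.exp_log (inv_pos.2 ha'.1), Real.log_inv]
    exact Real.exp_le_exp.2 (ht a ha)
  have h2 : a * Real.exp t ≤ 1 := by
    calc a * Real.exp t ≤ a * a⁻¹ := mul_le_mul_of_nonneg_left h ha'.1.le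
      _ = 1 := mul_inv_cancel₀ ha'.1.ne'
  exact max_eq_right (by linarith)

/-- rank monotonicity -/
lemma card_le_of_W (u v : Multiset ℝ) (hu : Good u) (hv : Good v) (hs : u.sum = v.sum)
    (hW : ∀ t, W u t ≤ W v t) : v.card ≤ u.card := by
  obtain ⟨T1, -, h1⟩ := exists_T u
  obtain ⟨T2, -, h2⟩ := exists_T v
  have h := hW (max T1 T2)
  rw [W_large u hu _ (h1 _ (le_max_left _ _)), W_large v hv _ (h2 _ (le_max_right _ _)), hs] at h
  have : (v.card : ℝ) ≤ u.card := by linarith
  exact_mod_cast this

lemma J_add (r : ℝ) (u v : Multiset ℝ) : J r (u + v) = J r u + J r v := by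
  unfold J
  rw [Multiset.map_add, Multiset.sum_add]

end Pool.Agent.Q19.LC
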