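import Pool.Agent.Q19.LC.Polya

/-!
From positivity of a truncated Laplace transform to a lower step function whose generating
polynomial is positive on `(0, ∞)`.
-/

namespace Pool.Agent.Q19.LC

open Filter Topology intervalIntegral Finset

/-- domination by the left end, uniformly in the mesh -/
lemma comb_left (T A1 A2 κ C : ℝ) (hA1 : 0 ≤ A1) (hA : A1 < A2) (hA2 : A2 ≤ T) (hκ : 0 < κ)
    (hC : 0 ≤ C) : ∃ (R0 : ℝ) (L0 : ℕ), 0 ≤ R0 ∧ 0 < L0 ∧ ∀ L : ℕ, L0 ≤ L → ∀ a : ℕ → ℝ,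
      (∀ j < L, -C ≤ a j) → (∀ j < L, (j + 1) * (T / L) ≤ A2 → 0 ≤ a j) →
      (∀ j < L, A1 ≤ j * (T / L) → (j + 1) * (T / L) ≤ A2 → κ ≤ a j) →
      ∀ r : ℝ, R0 ≤ r → 0 < ∑ j ∈ range L, a j * Real.exp (-(r * (j * (T / L)))) := by
  set h := A2 - A1 with hh
  have hpos : 0 < h := by rw [hh]; linarith
  have hT : 0 < T := by linarith
  obtain ⟨L0, hL0⟩ := exists_nat_gt (8 * T / h)
  -- R0
  obtain ⟨R0, hR0, hR⟩ : ∃ R0 : ℝ, 0 ≤ R0 ∧ ∀ r, R0 ≤ r →
      C * Real.exp (-(r * (h / 2))) < h * κ / (8 * T) := by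
    have h1 : Tendsto (fun r : ℝ => C * Real.exp (-(r * (h / 2)))) atTop (𝓝 (C * 0)) := by
      apply Tendsto.const_mul
      have h2 : Tendsto (fun r : ℝ => r * (h / 2)) atTop atTop :=
        tendsto_id.atTop_mul_const (by linarith)
      exact Real.tendsto_exp_neg_atTop_nhds_zero.comp h2
    rw [mul_zero] at h1
    have h3 := h1.eventually (gt_mem_nhds (by positivity : (0 : ℝ) < h * κ / (8 * T)))
    obtain ⟨R, hR⟩ := eventually_atTop.1 h3
    exact ⟨max R 0, le_max_right _ _, fun r hr => hR r ((le_max_left _ _).trans hr)⟩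
  refine ⟨R0, L0 + 1, hR0, Nat.succ_pos _, fun L hL a ha1 ha2 ha3 r hr => ?_⟩
  have hr0 : 0 ≤ r := hR0.trans hr
  have hLpos : (0 : ℝ) < L := by
    have : (1 : ℝ) ≤ L := by exact_mod_cast (by omega : 1 ≤ L)
    linarith
  have hLL : (L0 : ℝ) ≤ L := by exact_mod_cast (by omega : L0 ≤ L)
  set δ := T / L with hδ
  have hδpos : 0 < δ := div_pos hT hLpos
  have hδh : δ ≤ h / 8 := by
    rw [hδ, div_le_iff₀ hLpos]
    rw [div_lt_iff₀ hpos] at hL0
    nlinarith
  have hδL : δ * L = T := by rw [hδ]; field_simp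
  set E := Real.exp (-(r * (A1 + h / 4))) with hE
  set E' := Real.exp (-(r * (A2 - δ))) with hE'
  set I : Finset ℕ := Ico ⌈A1 / δ⌉₊ (⌊(A1 + h / 4) / δ⌋₊ + 1) with hI
  have hImem : ∀ j ∈ I, A1 ≤ j * δ ∧ j * δ ≤ A1 + h / 4 := by
    intro j hj
    rw [hI, mem_Ico] at hj
    constructor
    · have := Nat.ceil_le.1 hj.1
      rwa [div_le_iff₀ hδpos] at this
    · have h1 : j ≤ ⌊(A1 + h / 4) / δ⌋₊ := by omega
      have := (Nat.le_floor_iff (by positivity)).1 h1
      rwa [le_div_iff₀ hδpos] at this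
  have hIsub : I ⊆ range L := by
    intro j hj
    have h1 := (hImem j hj).2
    rw [mem_range]
    by_contra hcon
    push Not at hcon
    have h2 : (L : ℝ) ≤ j := by exact_mod_cast hcon
    have h3 := mul_le_mul_of_nonneg_right h2 hδpos.le
    have h4 : (L : ℝ) * δ = T := by rw [mul_comm]; exact hδL
    linarith
  have hIcard : h / (8 * δ) ≤ (I.card : ℝ) := by
    rw [hI, Nat.card_Ico]
    have h1 := Nat.lt_floor_add_one ((A1 + h / 4) / δ)
    have h2 := Nat.ceil_lt_add_one (div_nonneg hA1 hδpos.le)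
    have h3 : (A1 + h / 4) / δ = A1 / δ + 2 * (h / (8 * δ)) := by
      field_simp
      ring
    have h5 : 1 ≤ h / (8 * δ) := by rw [le_div_iff₀ (by positivity)]; linarith
    have h6 : ((⌊(A1 + h / 4) / δ⌋₊ + 1 : ℕ) : ℝ) - (⌈A1 / δ⌉₊ : ℝ)
        ≤ ((⌊(A1 + h / 4) / δ⌋₊ + 1 - ⌈A1 / δ⌉₊ : ℕ) : ℝ) := by
      rw [sub_le_iff_le_add]
      exact_mod_cast (by omega : ⌊(A1 + h / 4) / δ⌋₊ + 1
        ≤ ⌊(A1 + h / 4) / δ⌋₊ + 1 - ⌈A1 / δ⌉₊ + ⌈A1 / δ⌉₊)
    push_cast at h6
    linarith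
  have hterm : ∀ j ∈ range L, (if j ∈ I then κ * E else 0) - C * E'
      ≤ a j * Real.exp (-(r * (j * δ))) := by
    intro j hj
    rw [mem_range] at hj
    have hCE : 0 ≤ C * E' := mul_nonneg hC (Real.exp_pos _).le
    by_cases hjI : j ∈ I
    · rw [if_pos hjI]
      obtain ⟨g1, g2⟩ := hImem j hjI
      have g3 : (j + 1) * δ ≤ A2 := by
        have : (j + 1) * δ = j * δ + δ := by ring
        rw [this]
        linarith
      have g4 := ha3 j hj g1 g3
      have g5 : E ≤ Real.exp (-(r * (j * δ))) := by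
        apply Real.exp_le_exp.2
        have := mul_le_mul_of_nonneg_left g2 hr0
        linarith
      have g6 : κ * E ≤ a j * Real.exp (-(r * (j * δ))) :=
        mul_le_mul g4 g5 (Real.exp_pos _).le (by linarith)
      linarith
    · rw [if_neg hjI]
      by_cases hj2 : (j + 1) * δ ≤ A2
      · have := mul_nonneg (ha2 j hj hj2) (Real.exp_pos (-(r * (j * δ)))).le
        linarith
      · push Not at hj2
        have g1 : A2 - δ ≤ j * δ := by
          have : (j + 1) * δ = j * δ + δ := by ring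
          rw [this] at hj2
          linarith
        have g2 : Real.exp (-(r * (j * δ))) ≤ E' := by
          apply Real.exp_le_exp.2
          have := mul_le_mul_of_nonneg_left g1 hr0
          linarith
        have g3 : -C * Real.exp (-(r * (j * δ))) ≤ a j * Real.exp (-(r * (j * δ))) :=
          mul_le_mul_of_nonneg_right (ha1 j hj) (Real.exp_pos _).le
        have g4 := mul_le_mul_of_nonneg_left g2 hC
        linarith
  have hsum := Finset.sum_le_sum hterm
  have hs1 : ∑ j ∈ range L, ((if j ∈ I then κ * E else 0) - C * E')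
      = I.card * (κ * E) - L * (C * E') := by
    rw [Finset.sum_sub_distrib, Finset.sum_ite_mem, Finset.inter_eq_right.2 hIsub]
    simp
  rw [hs1] at hsum
  refine lt_of_lt_of_le ?_ hsum
  have hEpos : 0 < E := Real.exp_pos _
  have k1 : h / (8 * δ) * (κ * E) ≤ I.card * (κ * E) :=
    mul_le_mul_of_nonneg_right hIcard (by positivity)
  have k2 : E' ≤ E * Real.exp (-(r * (h / 2))) := by
    rw [hE, hE', ← Real.exp_add]
    apply Real.exp_le_exp.2
    have : h / 4 + h / 2 + δ ≤ h := by linarith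
    have := mul_le_mul_of_nonneg_left this hr0
    have e : A2 = A1 + h := by rw [hh]; ring
    rw [e]
    linarith
  have k3 : L * (C * E') ≤ L * (C * (E * Real.exp (-(r * (h / 2))))) := by gcongr
  have k4 : L * (C * (E * Real.exp (-(r * (h / 2))))) < L * (E * (h * κ / (8 * T))) := by
    have := hR r hr
    have k5 : E * (C * Real.exp (-(r * (h / 2)))) < E * (h * κ / (8 * T)) :=
      mul_lt_mul_of_pos_left this hEpos
    have k6 := mul_lt_mul_of_pos_left k5 hLpos
    calc L * (C * (E * Real.exp (-(r * (h / 2))))) = L * (E * (C * Real.exp (-(r * (h / 2))))) := by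
          ring
      _ < _ := k6
  have k7 : L * (E * (h * κ / (8 * T))) = h / (8 * δ) * (κ * E) := by
    rw [← hδL]
    field_simp
  linarith

/-- domination by the right end -/
lemma comb_right (T B1 B2 κ C : ℝ) (hB1 : 0 ≤ B1) (hB : B1 < B2) (hB2 : B2 ≤ T) (hκ : 0 < κ)
    (hC : 0 ≤ C) : ∃ (R0 : ℝ) (L0 : ℕ), 0 ≤ R0 ∧ 0 < L0 ∧ ∀ L : ℕ, L0 ≤ L → ∀ a : ℕ → ℝ,
      (∀ j < L, -C ≤ a j) → (∀ j < L, B1 ≤ j * (T / L) → 0 ≤ a j) →
      (∀ j < L, B1 ≤ j * (T / L) → (j + 1) * (T / L) ≤ B2 → κ ≤ a j) →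
      ∀ r : ℝ, r ≤ -R0 → 0 < ∑ j ∈ range L, a j * Real.exp (-(r * (j * (T / L)))) := by
  obtain ⟨R0, L0, hR0, hL0, H⟩ := comb_left T (T - B2) (T - B1) κ C (by linarith) (by linarith)
    (by linarith) hκ hC
  refine ⟨R0, L0, hR0, hL0, fun L hL a ha1 ha2 ha3 r hr => ?_⟩
  have hLpos : (0 : ℝ) < L := by exact_mod_cast (by omega : 0 < L)
  have hδL : (L : ℝ) * (T / L) = T := by field_simp
  have hcast : ∀ j < L, ((L - 1 - j : ℕ) : ℝ) = L - 1 - j := by
    intro j hj
    rw [Nat.cast_sub (by omega), Nat.cast_sub (by omega)]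
    simp
  have h1 := H L hL (fun j => a (L - 1 - j)) (fun j hj => ha1 _ (by omega))
    (fun j hj hj2 => ha2 _ (by omega) (by
      rw [hcast j hj]
      have : (L - 1 - j : ℝ) * (T / L) = T - (j + 1) * (T / L) := by
        rw [sub_mul, sub_mul, hδL]; ring
      rw [this]
      linarith))
    (fun j hj hj1 hj2 => ha3 _ (by omega) (by
      rw [hcast j hj]
      have : (L - 1 - j : ℝ) * (T / L) = T - (j + 1) * (T / L) := by
        rw [sub_mul, sub_mul, hδL]; ring
      rw [this]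
      linarith) (by
      rw [hcast j hj]
      have : ((L - 1 - j : ℝ) + 1) * (T / L) = T - j * (T / L) := by
        rw [add_mul, sub_mul, sub_mul, hδL]; ring
      rw [this]
      linarith)) (-r) (by linarith)
  have h2 : ∑ j ∈ range L, a j * Real.exp (-(r * (j * (T / L))))
      = Real.exp (-(r * ((L - 1) * (T / L)))) *
        ∑ j ∈ range L, a (L - 1 - j) * Real.exp (-(-r * (j * (T / L)))) := by
    rw [← Finset.sum_range_reflect, Finset.mul_sum]
    apply Finset.sum_congr rfl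
    intro j hj
    rw [mem_range] at hj
    rw [hcast j hj]
    have e : Real.exp (-(r * (((L : ℝ) - 1 - j) * (T / L))))
        = Real.exp (-(r * ((L - 1) * (T / L)))) * Real.exp (-(-r * (j * (T / L)))) := by
      rw [← Real.exp_add]
      congr 1
      ring
    rw [e]
    ring
  rw [h2]
  exact mul_pos (Real.exp_pos _) h1

/-- Riemann sums converge uniformly for bounded `r` -/
lemma riemann (D : ℝ → ℝ) (hD : Continuous D) (T : ℝ) (hT : 0 < T) (R ε : ℝ) (hε : 0 < ε) :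
    ∃ L0 : ℕ, 0 < L0 ∧ ∀ L : ℕ, L0 ≤ L → ∀ p : ℕ → ℝ,
      (∀ j < L, p j ∈ Set.Icc (j * (T / L)) ((j + 1) * (T / L))) →
      ∀ r : ℝ, |r| ≤ R →
      |(T / L) * ∑ j ∈ range L, D (p j) * Real.exp (-(r * (j * (T / L))))
        - ∫ t in (0 : ℝ)..T, Real.exp (-(r * t)) * D t| ≤ ε := by
  have hcont : Continuous (fun q : (ℝ × ℝ) × ℝ => Real.exp (-(q.2 * q.1.2)) * D q.1.1) := by
    fun_prop
  have hK : IsCompact ((Set.Icc (0 : ℝ) T ×ˢ Set.Icc (0 : ℝ) T) ×ˢ Set.Icc (-R) R) :=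
    (isCompact_Icc.prod isCompact_Icc).prod isCompact_Icc
  have hu := hK.uniformContinuousOn_of_continuous hcont.continuousOn
  rw [Metric.uniformContinuousOn_iff] at hu
  obtain ⟨d, hd, hu⟩ := hu (ε / T) (div_pos hε hT)
  obtain ⟨L0, hL0⟩ := exists_nat_gt (T / d)
  refine ⟨L0 + 1, Nat.succ_pos _, fun L hL p hp r hr => ?_⟩
  have hLpos : (0 : ℝ) < L := by exact_mod_cast (by omega : 0 < L)
  have hLL : (L0 : ℝ) ≤ L := by exact_mod_cast (by omega : L0 ≤ L)
  set δ := T / L with hδ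
  have hδpos : 0 < δ := div_pos hT hLpos
  have hδL : (L : ℝ) * δ = T := by rw [hδ]; field_simp
  have hδd : δ < d := by
    rw [hδ, div_lt_iff₀ hLpos]
    rw [div_lt_iff₀ hd] at hL0
    nlinarith
  have hsplit : ∫ t in (0 : ℝ)..T, Real.exp (-(r * t)) * D t
      = ∑ j ∈ range L, ∫ t in (j * δ)..((j + 1) * δ), Real.exp (-(r * t)) * D t := by
    have h1 := intervalIntegral.sum_integral_adjacent_intervals (μ := MeasureTheory.volume)
      (f := fun t => Real.exp (-(r * t)) * D t) (a := fun j : ℕ => (j : ℝ) * δ) (n := L)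
      (fun k _ => Continuous.intervalIntegrable (by fun_prop) _ _)
    simp only [Nat.cast_zero, zero_mul, hδL] at h1
    rw [← h1]
    apply Finset.sum_congr rfl
    intro j _
    push_cast
    rfl
  rw [hsplit, Finset.mul_sum, ← Finset.sum_sub_distrib]
  refine (Finset.abs_sum_le_sum_abs _ _).trans ?_
  have hcell : ∀ j ∈ range L, |δ * (D (p j) * Real.exp (-(r * (j * δ))))
      - ∫ t in (j * δ)..((j + 1) * δ), Real.exp (-(r * t)) * D t| ≤ ε / T * δ := by
    intro j hj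
    rw [mem_range] at hj
    have hj1 : (j : ℝ) + 1 ≤ L := by exact_mod_cast hj
    have hj0 : (0 : ℝ) ≤ j := Nat.cast_nonneg j
    have hc0 : 0 ≤ (j : ℝ) * δ := by positivity
    have hcT : ((j : ℝ) + 1) * δ ≤ T := by
      rw [← hδL]; exact mul_le_mul_of_nonneg_right hj1 hδpos.le
    have e1 : ((j : ℝ) + 1) * δ = j * δ + δ := by ring
    have h2 : δ * (D (p j) * Real.exp (-(r * (j * δ))))
        = ∫ t in (j * δ)..((j + 1) * δ), D (p j) * Real.exp (-(r * (j * δ))) := by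
      rw [intervalIntegral.integral_const, e1, smul_eq_mul]
      ring
    rw [h2, ← intervalIntegral.integral_sub (Continuous.intervalIntegrable (by fun_prop) _ _)
      (Continuous.intervalIntegrable (by fun_prop) _ _)]
    have h3 := intervalIntegral.norm_integral_le_of_norm_le_const (a := (j : ℝ) * δ)
      (b := ((j : ℝ) + 1) * δ) (C := ε / T)
      (f := fun t => D (p j) * Real.exp (-(r * (j * δ))) - Real.exp (-(r * t)) * D t) (by
        intro t ht
        rw [Set.uIoc_of_le (by linarith)] at ht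
        have ht' : t ∈ Set.Icc ((j : ℝ) * δ) ((j + 1) * δ) := ⟨ht.1.le, ht.2⟩
        have hpj := hp j hj
        have hdist := hu ((p j, j * δ), r) ⟨⟨⟨by linarith [hpj.1], by linarith [hpj.2]⟩,
          ⟨hc0, by linarith⟩⟩, abs_le.1 hr⟩ ((t, t), r)
          ⟨⟨⟨by linarith [ht'.1], by linarith [ht'.2]⟩, ⟨by linarith [ht'.1], by linarith [ht'.2]⟩⟩,
          abs_le.1 hr⟩ (by
            rw [Prod.dist_eq, Prod.dist_eq, dist_self, Real.dist_eq, Real.dist_eq]
            apply max_lt (max_lt _ _) hd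
            · rw [abs_lt]
              constructor <;> linarith [hpj.1, hpj.2, ht'.1, ht'.2]
            · rw [abs_lt]
              constructor <;> linarith [hpj.1, hpj.2, ht'.1, ht'.2])
        rw [Real.dist_eq] at hdist
        rw [Real.norm_eq_abs, mul_comm (D (p j))]
        exact hdist.le)
    rw [Real.norm_eq_abs] at h3
    have e2 : |((j : ℝ) + 1) * δ - j * δ| = δ := by
      rw [e1, add_sub_cancel_left, abs_of_pos hδpos]
    rw [e2] at h3
    exact h3
  refine (Finset.sum_le_sum hcell).trans (le_of_eq ?_)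
  rw [Finset.sum_const, card_range, nsmul_eq_mul]
  calc (L : ℝ) * (ε / T * δ) = ε / T * (L * δ) := by ring
    _ = ε := by rw [hδL]; field_simp

/-- the lower step function -/
theorem exists_step (D : ℝ → ℝ) (hD : Continuous D) (T : ℝ) (hT : 0 < T)
    (hF : ∀ r : ℝ, 0 < ∫ t in (0 : ℝ)..T, Real.exp (-(r * t)) * D t)
    (A1 A2 κ : ℝ) (hA1 : 0 ≤ A1) (hA : A1 < A2) (hA2 : A2 ≤ T) (hκ : 0 < κ)
    (hAκ : ∀ t, A1 ≤ t → t ≤ A2 → κ ≤ D t) (hA0 : ∀ t, 0 ≤ t → t ≤ A2 → 0 ≤ D t)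
    (B1 B2 κ' : ℝ) (hB1 : 0 ≤ B1) (hB : B1 < B2) (hB2 : B2 ≤ T) (hκ' : 0 < κ')
    (hBκ : ∀ t, B1 ≤ t → t ≤ B2 → κ' ≤ D t) (hB0 : ∀ t, B1 ≤ t → t ≤ T → 0 ≤ D t) :
    ∃ L : ℕ, 0 < L ∧ ∃ a : ℕ → ℝ,
      (∀ j < L, ∀ t, j * (T / L) ≤ t → t ≤ (j + 1) * (T / L) → a j ≤ D t) ∧
      ∀ s : ℝ, 0 < s → 0 < ∑ j ∈ range L, a j * s ^ j := by
  -- bound
  obtain ⟨C, hC0, hC⟩ : ∃ C : ℝ, 0 ≤ C ∧ ∀ t, 0 ≤ t → t ≤ T → -C ≤ D t := by
    obtain ⟨m, -, hm⟩ := isCompact_Icc.exists_isMinOn (Set.nonempty_Icc.2 hT.le) hD.continuousOn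
    refine ⟨|D m|, abs_nonneg _, fun t h0 h1 => ?_⟩
    have h2 : D m ≤ D t := hm ⟨h0, h1⟩
    have := neg_abs_le (D m)
    linarith
  obtain ⟨R1, L1, hR1, hL1, H1⟩ := comb_left T A1 A2 κ C hA1 hA hA2 hκ hC0
  obtain ⟨R2, L2, hR2, hL2, H2⟩ := comb_right T B1 B2 κ' C hB1 hB hB2 hκ' hC0
  set R := max R1 R2 with hR
  -- minimum of the Laplace transform on [-R, R]
  obtain ⟨m0, hm0, hm⟩ : ∃ m0 : ℝ, 0 < m0 ∧ ∀ r : ℝ, |r| ≤ R →
      m0 ≤ ∫ t in (0 : ℝ)..T, Real.exp (-(r * t)) * D t := by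
    have hc : Continuous (fun r : ℝ => ∫ t in (0 : ℝ)..T, Real.exp (-(r * t)) * D t) := by
      apply intervalIntegral.continuous_parametric_intervalIntegral_of_continuous'
      change Continuous (fun q : ℝ × ℝ => Real.exp (-(q.1 * q.2)) * D q.2)
      fun_prop
    have hRn : -R ≤ R := by
      have : 0 ≤ R := hR1.trans (le_max_left _ _)
      linarith
    obtain ⟨r0, -, hr0⟩ := isCompact_Icc.exists_isMinOn (Set.nonempty_Icc.2 hRn) hc.continuousOn
    exact ⟨_, hF r0, fun r hr => hr0 (abs_le.1 hr)⟩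
  obtain ⟨L3, hL3, H3⟩ := riemann D hD T hT R (m0 / 2) (by linarith)
  set L := max L1 (max L2 L3) with hLdef
  have hL1' : L1 ≤ L := le_max_left _ _
  have hL2' : L2 ≤ L := (le_max_left _ _).trans (le_max_right _ _)
  have hL3' : L3 ≤ L := (le_max_right _ _).trans (le_max_right _ _)
  have hLpos : 0 < L := by omega
  have hLposR : (0 : ℝ) < L := by exact_mod_cast hLpos
  set δ := T / L with hδ
  have hδpos : 0 < δ := div_pos hT hLposR
  have hδL : (L : ℝ) * δ = T := by rw [hδ]; field_simp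
  have hp : ∀ j : ℕ, ∃ p ∈ Set.Icc ((j : ℝ) * δ) ((j + 1) * δ),
      ∀ t ∈ Set.Icc ((j : ℝ) * δ) ((j + 1) * δ), D p ≤ D t := by
    intro j
    have hne : ((j : ℝ) * δ) ≤ ((j + 1) * δ) := by nlinarith
    obtain ⟨p, hp, hm⟩ := isCompact_Icc.exists_isMinOn (Set.nonempty_Icc.2 hne) hD.continuousOn
    exact ⟨p, hp, fun t ht => hm ht⟩
  choose p hp hpm using hp
  have hcell : ∀ j < L, 0 ≤ (j : ℝ) * δ ∧ ((j : ℝ) + 1) * δ ≤ T := by
    intro j hj
    refine ⟨by positivity, ?_⟩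
    rw [← hδL]
    apply mul_le_mul_of_nonneg_right _ hδpos.le
    exact_mod_cast hj
  refine ⟨L, hLpos, fun j => D (p j), fun j hj t h1 h2 => hpm j t ⟨h1, h2⟩, fun s hs => ?_⟩
  -- s = exp (-r δ)
  set r := -Real.log s / δ with hr
  have hsr : ∀ j : ℕ, s ^ j = Real.exp (-(r * (j * δ))) := by
    intro j
    have : -(r * (j * δ)) = j * Real.log s := by
      rw [hr]; field_simp
    rw [this, Real.exp_nat_mul, Real.exp_log hs]
  simp only [hsr]
  have ha1 : ∀ j < L, -C ≤ D (p j) := fun j hj =>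
    hC _ ((hcell j hj).1.trans (hp j).1) ((hp j).2.trans (hcell j hj).2)
  by_cases hcase1 : R1 ≤ r
  · apply H1 L hL1' (fun j => D (p j)) ha1 _ _ r hcase1
    · intro j hj h1
      exact hA0 _ ((hcell j hj).1.trans (hp j).1) ((hp j).2.trans h1)
    · intro j hj h1 h2
      exact hAκ _ (h1.trans (hp j).1) ((hp j).2.trans h2)
  · by_cases hcase2 : r ≤ -R2
    · apply H2 L hL2' (fun j => D (p j)) ha1 _ _ r hcase2
      · intro j hj h1
        exact hB0 _ (h1.trans (hp j).1) ((hp j).2.trans (hcell j hj).2)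
      · intro j hj h1 h2
        exact hBκ _ (h1.trans (hp j).1) ((hp j).2.trans h2)
    · push Not at hcase1 hcase2
      have hrR : |r| ≤ R := by
        rw [abs_le]
        constructor
        · have : R2 ≤ R := le_max_right _ _
          linarith
        · have : R1 ≤ R := le_max_left _ _
          linarith
      have h1 := H3 L hL3' p (fun j _ => hp j) r hrR
      have h2 := hm r hrR
      have h3 := (abs_le.1 h1).1
      have h4 : 0 < δ * ∑ j ∈ range L, D (p j) * Real.exp (-(r * (j * δ))) := by linarith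
      exact (pos_iff_pos_of_mul_pos h4).1 hδpos

end Pool.Agent.Q19.LC
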