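import Mathlib

/-!
Majorization of finite multisets of nonnegative reals (zero padding allowed) via the sorted lists,
and its description by the functions `t ↦ ∑ (a - t)₊` and `τ ↦ ∑ (a e^τ - 1)₊`.
-/

namespace Pool.Agent.Q19.LC

open Multiset

/-- the sum of the `k` largest entries of the multiset `u` (of all entries if there are fewer
than `k` of them; this is the same as padding with zeros) -/
noncomputable def topSum (u : Multiset ℝ) (k : ℕ) : ℝ := ((u.sort (· ≥ ·)).take k).sum

/-- `u` is majorized by `v` -/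
def Majorized (u v : Multiset ℝ) : Prop :=
  (∀ k : ℕ, topSum u k ≤ topSum v k) ∧ u.sum = v.sum

/-- the function `t ↦ ∑ (a - t)₊` -/
noncomputable def phi (u : Multiset ℝ) (t : ℝ) : ℝ := (u.map (fun a => max (a - t) 0)).sum

lemma list_phi_nonneg (l : List ℝ) (t : ℝ) : 0 ≤ (l.map (fun a => max (a - t) 0)).sum := by
  apply List.sum_nonneg
  intro b hb
  rw [List.mem_map] at hb
  obtain ⟨a, -, rfl⟩ := hb
  exact le_max_right _ _

lemma list_take_le (l : List ℝ) : ∀ (k : ℕ) (t : ℝ), 0 ≤ t →
    (l.take k).sum ≤ k * t + (l.map (fun a => max (a - t) 0)).sum := by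
  induction l with
  | nil =>
    intro k t ht
    simp
    positivity
  | cons a l ih =>
    intro k t ht
    cases k with
    | zero =>
      have := list_phi_nonneg (a :: l) t
      simpa using this
    | succ k =>
      have := ih k t ht
      have h2 : a - t ≤ max (a - t) 0 := le_max_left _ _
      simp only [List.take_succ_cons, List.sum_cons, List.map_cons]
      push_cast
      linarith

lemma list_exists_k (l : List ℝ) (hl : l.Pairwise (· ≥ ·)) (t : ℝ) :
    ∃ k : ℕ, (l.map (fun a => max (a - t) 0)).sum = (l.take k).sum - k * t := by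
  induction l with
  | nil => exact ⟨0, by simp⟩
  | cons a l ih =>
    rw [List.pairwise_cons] at hl
    by_cases h : t < a
    · obtain ⟨k, hk⟩ := ih hl.2
      refine ⟨k + 1, ?_⟩
      simp only [List.take_succ_cons, List.sum_cons, List.map_cons]
      rw [hk, max_eq_left (by linarith)]
      push_cast
      ring
    · refine ⟨0, ?_⟩
      have h0 : ∀ x ∈ (a :: l).map (fun a => max (a - t) 0), x = 0 := by
        intro x hx
        rw [List.mem_map] at hx
        obtain ⟨b, hb, rfl⟩ := hx
        rw [List.mem_cons] at hb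
        apply max_eq_right
        rcases hb with rfl | hb
        · linarith
        · have := hl.1 b hb
          linarith
      rw [List.sum_eq_zero h0]
      simp

lemma list_exists_t (l : List ℝ) (hl : l.Pairwise (· ≥ ·)) (h0 : ∀ a ∈ l, 0 ≤ a) :
    ∀ (k : ℕ) (b : ℝ), 0 ≤ b → (∀ a ∈ l, a ≤ b) →
    ∃ t : ℝ, 0 ≤ t ∧ t ≤ b ∧
      (l.take k).sum = k * t + (l.map (fun a => max (a - t) 0)).sum := by
  induction l with
  | nil => intro k b hb _; exact ⟨0, le_refl _, hb, by simp⟩
  | cons a l ih =>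
    intro k b hb hab
    rw [List.pairwise_cons] at hl
    cases k with
    | zero =>
      refine ⟨b, hb, le_refl _, ?_⟩
      have h0 : ∀ x ∈ (a :: l).map (fun a => max (a - b) 0), x = 0 := by
        intro x hx
        rw [List.mem_map] at hx
        obtain ⟨c, hc, rfl⟩ := hx
        apply max_eq_right
        have := hab c hc
        linarith
      rw [List.sum_eq_zero h0]
      simp
    | succ k =>
      have ha0 : 0 ≤ a := h0 a (by simp)
      obtain ⟨t, ht0, hta, ht⟩ := ih hl.2 (fun c hc => h0 c (by simp [hc])) k a ha0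
        (fun c hc => hl.1 c hc)
      refine ⟨t, ht0, hta.trans (hab a (by simp)), ?_⟩
      simp only [List.take_succ_cons, List.sum_cons, List.map_cons]
      rw [ht, max_eq_left (by linarith)]
      push_cast
      ring

lemma phi_eq_sort (u : Multiset ℝ) (t : ℝ) :
    phi u t = ((u.sort (· ≥ ·)).map (fun a => max (a - t) 0)).sum := by
  unfold phi
  conv_lhs => rw [← Multiset.sort_eq u (· ≥ ·)]
  rw [Multiset.map_coe, Multiset.sum_coe]

theorem majorized_iff_phi (u v : Multiset ℝ) (hv : ∀ a ∈ v, 0 ≤ a) :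
    Majorized u v ↔ (∀ t : ℝ, 0 ≤ t → phi u t ≤ phi v t) ∧ u.sum = v.sum := by
  constructor
  · rintro ⟨h1, h2⟩
    refine ⟨fun t ht => ?_, h2⟩
    obtain ⟨k, hk⟩ := list_exists_k (u.sort (· ≥ ·)) (Multiset.pairwise_sort _ _) t
    rw [phi_eq_sort, hk]
    have h3 := list_take_le (v.sort (· ≥ ·)) k t ht
    rw [← phi_eq_sort] at h3
    have h4 := h1 k
    unfold topSum at h4
    linarith
  · rintro ⟨h1, h2⟩
    refine ⟨fun k => ?_, h2⟩
    obtain ⟨b, hb⟩ : ∃ b : ℝ, 0 ≤ b ∧ ∀ a ∈ v.sort (· ≥ ·), a ≤ b := by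
      refine ⟨v.sum, Multiset.sum_nonneg hv, fun a ha => ?_⟩
      rw [Multiset.mem_sort] at ha
      exact Multiset.single_le_sum hv a ha
    obtain ⟨t, ht0, -, ht⟩ := list_exists_t (v.sort (· ≥ ·)) (Multiset.pairwise_sort _ _)
      (fun a ha => hv a ((Multiset.mem_sort _).1 ha)) k b hb.1 hb.2
    rw [← phi_eq_sort] at ht
    have h3 := list_take_le (u.sort (· ≥ ·)) k t ht0
    rw [← phi_eq_sort] at h3
    have h4 := h1 t ht0
    unfold topSum
    linarith

/-- the function `τ ↦ ∑ (a e^τ - 1)₊` -/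
noncomputable def W (u : Multiset ℝ) (τ : ℝ) : ℝ :=
  (u.map (fun a => max (a * Real.exp τ - 1) 0)).sum

lemma phi_exp (u : Multiset ℝ) (τ : ℝ) : phi u (Real.exp (-τ)) = Real.exp (-τ) * W u τ := by
  unfold phi W
  rw [← Multiset.sum_map_mul_left]
  congr 1
  apply Multiset.map_congr rfl
  intro a _
  have h : Real.exp (-τ) * Real.exp τ = 1 := by rw [← Real.exp_add]; simp
  have hp := Real.exp_pos (-τ)
  rw [mul_max_of_nonneg _ _ hp.le]
  congr 1
  · linear_combination (-a) * h
  · simp

lemma phi_zero (u : Multiset ℝ) (hu : ∀ a ∈ u, 0 ≤ a) : phi u 0 = u.sum := by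
  unfold phi
  have : u.map (fun a => max (a - 0) 0) = u.map id := by
    apply Multiset.map_congr rfl
    intro a ha
    simp [hu a ha]
  rw [this, Multiset.map_id]

theorem majorized_iff (u v : Multiset ℝ) (hu : ∀ a ∈ u, 0 ≤ a) (hv : ∀ a ∈ v, 0 ≤ a) :
    Majorized u v ↔ (∀ τ : ℝ, W u τ ≤ W v τ) ∧ u.sum = v.sum := by
  rw [majorized_iff_phi u v hv]
  constructor
  · rintro ⟨h1, h2⟩
    refine ⟨fun τ => ?_, h2⟩
    have := h1 (Real.exp (-τ)) (Real.exp_pos _).le
    rw [phi_exp, phi_exp] at this
    exact le_of_mul_le_mul_left this (Real.exp_pos _)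
  · rintro ⟨h1, h2⟩
    refine ⟨fun t ht => ?_, h2⟩
    rcases ht.eq_or_lt with rfl | ht
    · rw [phi_zero u hu, phi_zero v hv, h2]
    · have e : t = Real.exp (-(-Real.log t)) := by rw [neg_neg, Real.exp_log ht]
      rw [e, phi_exp, phi_exp]
      exact mul_le_mul_of_nonneg_left (h1 _) (Real.exp_pos _).le

/-- the multiset of all products (Schmidt vector of a tensor product) -/
noncomputable def mulM (u v : Multiset ℝ) : Multiset ℝ := (u ×ˢ v).map (fun p => p.1 * p.2)

lemma mulM_eq_bind (u v : Multiset ℝ) : mulM u v = v.bind (fun b => u.map (fun a => a * b)) := by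
  unfold mulM
  have : u ×ˢ v = v.bind (fun b => u.map (fun a => (a, b))) := by
    change u.bind (fun a => v.map (Prod.mk a)) = _
    exact Multiset.bind_map_comm u v
  rw [this, Multiset.map_bind]
  congr 1
  funext b
  rw [Multiset.map_map]
  rfl

lemma sum_map_mulM (u v : Multiset ℝ) (f : ℝ → ℝ) :
    ((mulM u v).map f).sum = (v.map (fun b => (u.map (fun a => f (a * b))).sum)).sum := by
  rw [mulM_eq_bind, Multiset.map_bind, Multiset.sum_bind]
  congr 1
  apply Multiset.map_congr rfl
  intro b _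
  rw [Multiset.map_map]
  rfl

lemma mem_mulM {u v : Multiset ℝ} {c : ℝ} : c ∈ mulM u v ↔ ∃ a ∈ u, ∃ b ∈ v, a * b = c := by
  unfold mulM
  rw [Multiset.mem_map]
  constructor
  · rintro ⟨p, hp, rfl⟩
    rw [Multiset.mem_product] at hp
    exact ⟨p.1, hp.1, p.2, hp.2, rfl⟩
  · rintro ⟨a, ha, b, hb, rfl⟩
    exact ⟨(a, b), by rw [Multiset.mem_product]; exact ⟨ha, hb⟩, rfl⟩

lemma card_mulM (u v : Multiset ℝ) : (mulM u v).card = u.card * v.card := by
  unfold mulM
  rw [Multiset.card_map, Multiset.card_product]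

lemma sum_mulM (u v : Multiset ℝ) : (mulM u v).sum = u.sum * v.sum := by
  have := sum_map_mulM u v (fun x => x)
  rw [Multiset.map_id'] at this
  rw [this]
  have e : ∀ b : ℝ, (u.map (fun a => a * b)).sum = u.sum * b := by
    intro b
    rw [Multiset.sum_map_mul_right]
    simp
  simp only [e]
  rw [Multiset.sum_map_mul_left]
  simp

lemma W_mulM (u v : Multiset ℝ) (hv : ∀ b ∈ v, 0 < b) (τ : ℝ) :
    W (mulM u v) τ = (v.map (fun b => W u (τ + Real.log b))).sum := by
  unfold W
  rw [sum_map_mulM]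
  congr 1
  apply Multiset.map_congr rfl
  intro b hb
  congr 1
  apply Multiset.map_congr rfl
  intro a _
  rw [Real.exp_add, Real.exp_log (hv b hb)]
  congr 2
  ring

lemma W_nonneg (u : Multiset ℝ) (τ : ℝ) : 0 ≤ W u τ := by
  unfold W
  apply Multiset.sum_nonneg
  intro x hx
  rw [Multiset.mem_map] at hx
  obtain ⟨a, -, rfl⟩ := hx
  exact le_max_right _ _

lemma W_add (u v : Multiset ℝ) (τ : ℝ) : W (u + v) τ = W u τ + W v τ := by
  unfold W
  rw [Multiset.map_add, Multiset.sum_add]

lemma continuous_W (u : Multiset ℝ) : Continuous (W u) := by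
  unfold W
  induction u using Multiset.induction_on with
  | empty => simpa using continuous_const
  | cons a u ih =>
    simp only [Multiset.map_cons, Multiset.sum_cons]
    exact (by fun_prop : Continuous (fun τ : ℝ => max (a * Real.exp τ - 1) 0)).add ih

/-- zeros do not matter -/
lemma W_filter (u : Multiset ℝ) (τ : ℝ) (hu : ∀ a ∈ u, 0 ≤ a) :
    W (u.filter (fun a => 0 < a)) τ = W u τ := by
  conv_rhs => rw [← Multiset.filter_add_not (fun a => 0 < a) u]
  rw [W_add]
  have : W (u.filter (fun a => ¬ 0 < a)) τ = 0 := by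
    unfold W
    apply Multiset.sum_eq_zero
    intro x hx
    rw [Multiset.mem_map] at hx
    obtain ⟨a, ha, rfl⟩ := hx
    rw [Multiset.mem_filter] at ha
    have : a = 0 := le_antisymm (not_lt.1 ha.2) (hu a ha.1)
    rw [this]
    simp
  rw [this, add_zero]

lemma sum_filter_pos (u : Multiset ℝ) (hu : ∀ a ∈ u, 0 ≤ a) :
    (u.filter (fun a => 0 < a)).sum = u.sum := by
  conv_rhs => rw [← Multiset.filter_add_not (fun a => 0 < a) u]
  rw [Multiset.sum_add]
  have : (u.filter (fun a => ¬ 0 < a)).sum = 0 := by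
    apply Multiset.sum_eq_zero
    intro a ha
    rw [Multiset.mem_filter] at ha
    exact le_antisymm (not_lt.1 ha.2) (hu a ha.1)
  rw [this, add_zero]

end Pool.Agent.Q19.LC
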