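import Mathlib

/-!
Univariate Polya theorem: a real polynomial positive on `(0, ∞)` becomes coefficientwise
nonnegative after multiplication with a high power of `1 + X`.
-/

namespace Pool.Agent.Q19.LC

open Polynomial

/-- coefficientwise nonnegative -/
def CN (P : ℝ[X]) : Prop := ∀ n, 0 ≤ P.coeff n

lemma CN.mul {P Q : ℝ[X]} (hP : CN P) (hQ : CN Q) : CN (P * Q) := by
  intro n
  rw [coeff_mul]
  exact Finset.sum_nonneg fun x _ => mul_nonneg (hP _) (hQ _)

lemma CN_one : CN 1 := by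
  intro n
  rw [coeff_one]
  split_ifs <;> norm_num

lemma CN_X_add_C {b : ℝ} (hb : 0 ≤ b) : CN (X + C b) := by
  intro n
  rw [coeff_add, coeff_X, coeff_C]
  split_ifs <;> linarith

lemma CN.pow {P : ℝ[X]} (hP : CN P) (n : ℕ) : CN (P ^ n) := by
  induction n with
  | zero => simpa using CN_one
  | succ n ih => rw [pow_succ]; exact ih.mul hP

lemma CN_one_add_X_pow (n : ℕ) : CN ((1 + X) ^ n) := by
  have : CN (1 + X : ℝ[X]) := by
    have := CN_X_add_C (b := 1) (by norm_num)
    rwa [C_1, add_comm] at this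
  exact this.pow n

lemma coercive (b c : ℝ) (h : b ^ 2 < 4 * c) : ∃ l : ℝ, 0 < l ∧ ∀ u v : ℝ,
    l * (u + v) ^ 2 ≤ c * u ^ 2 - b * u * v + v ^ 2 := by
  have hc : 0 < c := by nlinarith [sq_nonneg b]
  have h1 : ∀ᶠ l : ℝ in nhdsWithin 0 (Set.Ioi 0), 0 < 4 * (c - l) * (1 - l) - (b + 2 * l) ^ 2 := by
    have hcont : ContinuousAt (fun l : ℝ => 4 * (c - l) * (1 - l) - (b + 2 * l) ^ 2) 0 := by
      fun_prop
    have h0 : (0 : ℝ) < (fun l : ℝ => 4 * (c - l) * (1 - l) - (b + 2 * l) ^ 2) 0 := by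
      simp
      linarith
    exact (hcont.eventually (lt_mem_nhds h0)).filter_mono nhdsWithin_le_nhds
  have h2 : ∀ᶠ l : ℝ in nhdsWithin 0 (Set.Ioi 0), l < 1 :=
    (gt_mem_nhds (by norm_num : (0 : ℝ) < 1)).filter_mono nhdsWithin_le_nhds
  have h3 : ∀ᶠ l : ℝ in nhdsWithin 0 (Set.Ioi 0), 0 < l := eventually_mem_nhdsWithin
  obtain ⟨l, hl1, hl2, hl3⟩ := (h1.and (h2.and h3)).exists
  refine ⟨l, hl3, fun u v => ?_⟩
  have h4 : 0 < 1 - l := by linarith
  -- 4 (1-l) * expr = (2(1-l) v - (b+2l) u)^2 + disc * u^2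
  have key : 4 * (1 - l) * ((c * u ^ 2 - b * u * v + v ^ 2) - l * (u + v) ^ 2)
      = (2 * (1 - l) * v - (b + 2 * l) * u) ^ 2
        + (4 * (c - l) * (1 - l) - (b + 2 * l) ^ 2) * u ^ 2 := by ring
  have h5 : 0 ≤ 4 * (1 - l) * ((c * u ^ 2 - b * u * v + v ^ 2) - l * (u + v) ^ 2) := by
    rw [key]
    have := mul_nonneg hl1.le (sq_nonneg u)
    have := sq_nonneg (2 * (1 - l) * v - (b + 2 * l) * u)
    linarith
  have h6 : 0 ≤ (c * u ^ 2 - b * u * v + v ^ 2) - l * (u + v) ^ 2 := by
    by_contra hneg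
    push Not at hneg
    have := mul_neg_of_pos_of_neg (by linarith : 0 < 4 * (1 - l)) hneg
    linarith
  linarith

lemma choose_id (N j : ℕ) (hj : j ≤ N) :
    ((N.choose j : ℝ) * ((N + 1) * (N + 2)) = ((N + 2).choose (j + 2) : ℝ) * ((j + 2) * (j + 1))) ∧
    ((N.choose (j + 1) : ℝ) * ((N + 1) * (N + 2))
      = ((N + 2).choose (j + 2) : ℝ) * ((j + 2) * (N - j))) ∧
    ((N.choose (j + 2) : ℝ) * ((N + 1) * (N + 2))
      = ((N + 2).choose (j + 2) : ℝ) * ((N - j) * (N - j - 1))) := by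
  have a1 : ((N + 1 : ℕ) : ℝ) * (N.choose j : ℝ) = ((N + 1).choose (j + 1) : ℝ) * ((j + 1 : ℕ) : ℝ) := by
    exact_mod_cast Nat.add_one_mul_choose_eq N j
  have a2 : ((N + 2 : ℕ) : ℝ) * ((N + 1).choose (j + 1) : ℝ)
      = ((N + 2).choose (j + 2) : ℝ) * ((j + 2 : ℕ) : ℝ) := by
    exact_mod_cast Nat.add_one_mul_choose_eq (N + 1) (j + 1)
  have a3 : ((N + 1 : ℕ) : ℝ) * (N.choose (j + 1) : ℝ)
      = ((N + 1).choose (j + 2) : ℝ) * ((j + 2 : ℕ) : ℝ) := by
    exact_mod_cast Nat.add_one_mul_choose_eq N (j + 1)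
  have a4 : ((N + 1).choose (j + 2) : ℝ) * ((N + 2 : ℕ) : ℝ)
      = ((N + 2).choose (j + 2) : ℝ) * ((N : ℝ) - j) := by
    have := Nat.choose_mul_succ_eq (N + 1) (j + 2)
    have e : N + 1 + 1 - (j + 2) = N - j := by omega
    rw [e] at this
    have e2 : ((N - j : ℕ) : ℝ) = (N : ℝ) - j := by rw [Nat.cast_sub hj]
    rw [← e2]
    exact_mod_cast this
  have a5 : (N.choose (j + 2) : ℝ) * ((N + 1 : ℕ) : ℝ)
      = ((N + 1).choose (j + 2) : ℝ) * ((N : ℝ) - j - 1) := by
    have := Nat.choose_mul_succ_eq N (j + 2)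
    rcases Nat.lt_or_ge j N with h | h
    · have e : N + 1 - (j + 2) = N - (j + 1) := by omega
      rw [e] at this
      have e2 : ((N - (j + 1) : ℕ) : ℝ) = (N : ℝ) - j - 1 := by
        rw [Nat.cast_sub (by omega)]; push_cast; ring
      rw [← e2]
      exact_mod_cast this
    · have e : N.choose (j + 2) = 0 := Nat.choose_eq_zero_of_lt (by omega)
      have e' : (N + 1).choose (j + 2) = 0 := Nat.choose_eq_zero_of_lt (by omega)
      rw [e, e']
      simp
  push_cast at a1 a2 a3 a4 a5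
  refine ⟨?_, ?_, ?_⟩
  · linear_combination (N + 2 : ℝ) * a1 + (j + 1 : ℝ) * a2
  · linear_combination (N + 2 : ℝ) * a3 + (j + 2 : ℝ) * a4
  · linear_combination (N + 2 : ℝ) * a5 + ((N : ℝ) - j - 1) * a4

/-- the key case: quadratics with two nonreal roots -/
lemma quad (b c : ℝ) (h : b ^ 2 < 4 * c) :
    ∃ N : ℕ, CN ((1 + X) ^ N * (X ^ 2 - C b * X + C c)) := by
  have hc : 0 < c := by nlinarith [sq_nonneg b]
  obtain ⟨l, hl, hco⟩ := coercive b c h
  obtain ⟨N1, hN1⟩ := exists_nat_gt ((1 + c) / l)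
  obtain ⟨N2, hN2⟩ := exists_nat_gt (b / c)
  refine ⟨N1 + N2, ?_⟩
  set N := N1 + N2 with hN
  have hNa : 1 + c ≤ l * (N + 2) := by
    rw [div_lt_iff₀ hl] at hN1
    have : (N : ℝ) = N1 + N2 := by rw [hN]; push_cast; ring
    have h2 : (0 : ℝ) ≤ N2 := Nat.cast_nonneg _
    nlinarith
  have hNb : b ≤ c * N := by
    rw [div_lt_iff₀ hc] at hN2
    have : (N : ℝ) = N1 + N2 := by rw [hN]; push_cast; ring
    have h2 : (0 : ℝ) ≤ N1 := Nat.cast_nonneg _
    nlinarith
  have hexp : (1 + X) ^ N * (X ^ 2 - C b * X + C c) =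
      (1 + X) ^ N * X ^ 2 - C b * ((1 + X) ^ N * X) + C c * ((1 + X : ℝ[X]) ^ N) := by ring
  intro n
  rw [hexp]
  rcases n with _ | _ | j
  · simp only [coeff_add, coeff_sub, coeff_C_mul, coeff_one_add_X_pow]
    rw [mul_coeff_zero, mul_coeff_zero]
    simp
    exact hc.le
  · simp only [coeff_add, coeff_sub, coeff_C_mul, coeff_one_add_X_pow]
    rw [coeff_mul_X_pow', if_neg (by norm_num)]
    rw [show (0 + 1 : ℕ) = 0 + 1 from rfl, coeff_mul_X, coeff_one_add_X_pow]
    simp
    linarith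
  · simp only [coeff_add, coeff_sub, coeff_C_mul, coeff_one_add_X_pow]
    rw [show (j + 1 + 1 : ℕ) = j + 2 from rfl, coeff_mul_X_pow, coeff_mul_X,
      coeff_one_add_X_pow, coeff_one_add_X_pow]
    rcases Nat.lt_or_ge N j with h' | h'
    · rw [Nat.choose_eq_zero_of_lt h', Nat.choose_eq_zero_of_lt (by omega : N < j + 1),
        Nat.choose_eq_zero_of_lt (by omega : N < j + 2)]
      simp
    · obtain ⟨e1, e2, e3⟩ := choose_id N j h'
      have hj : (j : ℝ) ≤ N := by exact_mod_cast h'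
      have hpos : (0 : ℝ) < (N + 1) * (N + 2) := by positivity
      have key : ((N.choose j : ℝ) - b * (N.choose (j + 1) : ℝ) + c * (N.choose (j + 2) : ℝ))
          * ((N + 1) * (N + 2)) = ((N + 2).choose (j + 2) : ℝ) *
          ((j + 2) * (j + 1) - b * ((j + 2) * (N - j)) + c * ((N - j) * (N - j - 1))) := by
        linear_combination e1 - b * e2 + c * e3
      have hin : 0 ≤ ((j : ℝ) + 2) * (j + 1) - b * ((j + 2) * (N - j))
          + c * ((N - j) * (N - j - 1)) := by
        have h7 := hco ((N : ℝ) - j) ((j : ℝ) + 2)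
        have h8 : ((N : ℝ) - j + (j + 2)) = N + 2 := by ring
        rw [h8] at h7
        have h9 : (1 + c) * ((N : ℝ) + 2) ≤ l * (N + 2) ^ 2 := by
          have : (0 : ℝ) ≤ N + 2 := by positivity
          nlinarith
        have h10 : c * ((N : ℝ) - j) ≤ c * (N + 2) := by
          apply mul_le_mul_of_nonneg_left _ hc.le
          have : (0 : ℝ) ≤ j := Nat.cast_nonneg _
          linarith
        nlinarith
      have h11 : 0 ≤ ((N.choose j : ℝ) - b * (N.choose (j + 1) : ℝ)
          + c * (N.choose (j + 2) : ℝ)) * ((N + 1) * (N + 2)) := by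
        rw [key]
        exact mul_nonneg (Nat.cast_nonneg _) hin
      exact nonneg_of_mul_nonneg_left h11 hpos

theorem polya (P : ℝ[X]) (hP : ∀ s : ℝ, 0 < s → 0 < P.eval s) :
    ∃ N : ℕ, CN ((1 + X) ^ N * P) := by
  induction hn : P.natDegree using Nat.strong_induction_on generalizing P with
  | _ n ih =>
    by_cases hn0 : n = 0
    · refine ⟨0, ?_⟩
      rw [hn0] at hn
      obtain ⟨c, hc⟩ : ∃ c, P = C c := ⟨P.coeff 0, eq_C_of_natDegree_eq_zero hn⟩
      subst hc
      have := hP 1 one_pos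
      rw [eval_C] at this
      rw [pow_zero, one_mul]
      intro m
      rw [coeff_C]
      split_ifs <;> linarith
    · have hP0 : P ≠ 0 := by
        rintro rfl
        simp at hn
        exact hn0 hn.symm
      obtain ⟨z, hz⟩ : ∃ z : ℂ, aeval z P = 0 := by
        have hdeg : (P.map (algebraMap ℝ ℂ)).degree ≠ 0 := by
          rw [degree_map]
          intro h
          rw [degree_eq_natDegree hP0, hn] at h
          exact hn0 (by exact_mod_cast h)
        obtain ⟨z, hz⟩ := Complex.exists_root (f := P.map (algebraMap ℝ ℂ)) (by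
          rw [degree_map, degree_eq_natDegree hP0, hn]
          exact_mod_cast Nat.pos_of_ne_zero hn0)
        exact ⟨z, by rw [← eval_map_algebraMap]; exact hz⟩
      by_cases him : z.im = 0
      · -- real root, must be nonpositive
        have hzr : z = (z.re : ℂ) := by
          apply Complex.ext <;> simp [him]
        have hroot : P.eval z.re = 0 := by
          rw [hzr] at hz
          have h2 : aeval ((z.re : ℝ) : ℂ) P = ((P.eval z.re : ℝ) : ℂ) := by
            have := Polynomial.aeval_algebraMap_apply ℂ z.re P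
            simpa using this
          rw [h2] at hz
          exact_mod_cast hz
        have hle : z.re ≤ 0 := by
          by_contra hh
          push Not at hh
          have := hP _ hh
          linarith
        obtain ⟨Q, hQ⟩ := dvd_iff_isRoot.2 hroot
        have hQ0 : Q ≠ 0 := by rintro rfl; simp at hQ; exact hP0 hQ
        have hQpos : ∀ s : ℝ, 0 < s → 0 < Q.eval s := by
          intro s hs
          have h1 := hP s hs
          rw [hQ, eval_mul, eval_sub, eval_X, eval_C] at h1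
          exact (pos_iff_pos_of_mul_pos h1).1 (by linarith)
        have hdegQ : Q.natDegree < n := by
          rw [hQ, natDegree_mul (X_sub_C_ne_zero _) hQ0, natDegree_X_sub_C] at hn
          omega
        obtain ⟨N, hN⟩ := ih _ hdegQ Q hQpos rfl
        refine ⟨N, ?_⟩
        rw [hQ]
        have e : (1 + X) ^ N * ((X - C z.re) * Q) = (X + C (-z.re)) * ((1 + X) ^ N * Q) := by
          rw [C_neg]; ring
        rw [e]
        exact (CN_X_add_C (by linarith)).mul hN
      · obtain ⟨Q, hQ⟩ := quadratic_dvd_of_aeval_eq_zero_im_ne_zero P hz him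
        have hdisc : (2 * z.re) ^ 2 < 4 * ‖z‖ ^ 2 := by
          rw [Complex.sq_norm, Complex.normSq_apply]
          have : 0 < z.im * z.im := by
            rcases lt_or_gt_of_ne him with h | h <;> nlinarith
          nlinarith
        have hQ0 : Q ≠ 0 := by rintro rfl; simp at hQ; exact hP0 hQ
        have hquadpos : ∀ s : ℝ, 0 < (X ^ 2 - C (2 * z.re) * X + C (‖z‖ ^ 2)).eval s := by
          intro s
          simp only [eval_add, eval_sub, eval_mul, eval_pow, eval_X, eval_C]
          nlinarith [sq_nonneg (s - z.re)]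
        have hQpos : ∀ s : ℝ, 0 < s → 0 < Q.eval s := by
          intro s hs
          have h1 := hP s hs
          rw [hQ, eval_mul] at h1
          exact (pos_iff_pos_of_mul_pos h1).1 (hquadpos s)
        have hdeg2 : (X ^ 2 - C (2 * z.re) * X + C (‖z‖ ^ 2) : ℝ[X]).natDegree = 2 := by
          compute_degree!
        have hne2 : (X ^ 2 - C (2 * z.re) * X + C (‖z‖ ^ 2) : ℝ[X]) ≠ 0 := by
          intro h
          rw [h] at hdeg2
          simp at hdeg2
        have hdegQ : Q.natDegree < n := by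
          rw [hQ, natDegree_mul hne2 hQ0, hdeg2] at hn
          omega
        obtain ⟨N, hN⟩ := ih _ hdegQ Q hQpos rfl
        obtain ⟨N', hN'⟩ := quad (2 * z.re) (‖z‖ ^ 2) hdisc
        refine ⟨N' + N, ?_⟩
        have e : (1 + X) ^ (N' + N) * P =
            ((1 + X) ^ N' * (X ^ 2 - C (2 * z.re) * X + C (‖z‖ ^ 2))) * ((1 + X) ^ N * Q) := by
          conv_lhs => rw [hQ]
          rw [pow_add]
          ring
        rw [e]
        exact hN'.mul hN

end Pool.Agent.Q19.LC
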