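import Pool.Agent.Q19.LC.Trump

/-!
Pure bipartite states, Schmidt vectors and tensor products.
-/

namespace Pool.Agent.Q19.LC

open Matrix

open scoped Kronecker

/-- The eigenvalues (with multiplicity) of `M * Mᴴ`, i.e. the squared singular values of `M`. -/
noncomputable def sqSing {n : Type*} [Fintype n] [DecidableEq n] (M : Matrix n n ℂ) :
    Multiset ℝ :=
  (Finset.univ : Finset n).val.map (isHermitian_mul_conjTranspose_self M).eigenvalues

/-- the coefficient matrix of a tensor product of two bipartite states: the Kronecker product,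
with the pairs of indices renumbered -/
noncomputable def tensorAmp {m n : ℕ} (M : Matrix (Fin m) (Fin m) ℂ)
    (N : Matrix (Fin n) (Fin n) ℂ) : Matrix (Fin (m * n)) (Fin (m * n)) ℂ :=
  Matrix.reindex finProdFinEquiv finProdFinEquiv (M ⊗ₖ N)

lemma tensorAmp_norm {m n : ℕ} (M : Matrix (Fin m) (Fin m) ℂ) (N : Matrix (Fin n) (Fin n) ℂ) :
    ∑ a, ∑ b, ‖tensorAmp M N a b‖ ^ 2 = (∑ i, ∑ j, ‖M i j‖ ^ 2) * (∑ k, ∑ l, ‖N k l‖ ^ 2) := by
  have h1 : ∀ a : Fin (m * n), ∑ b : Fin (m * n), ‖tensorAmp M N a b‖ ^ 2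
      = ∑ p : Fin m × Fin n, ‖M (finProdFinEquiv.symm a).1 p.1‖ ^ 2 *
        ‖N (finProdFinEquiv.symm a).2 p.2‖ ^ 2 := by
    intro a
    rw [← finProdFinEquiv.sum_comp]
    apply Finset.sum_congr rfl
    intro p _
    simp only [tensorAmp, Matrix.reindex_apply, Matrix.submatrix_apply, Equiv.symm_apply_apply,
      Matrix.kroneckerMap_apply]
    rw [norm_mul, mul_pow]
  simp only [h1]
  rw [← finProdFinEquiv.sum_comp]
  simp only [Equiv.symm_apply_apply]
  rw [Fintype.sum_prod_type]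
  have h2 : ∀ i : Fin m, ∀ k : Fin n,
      ∑ p : Fin m × Fin n, ‖M i p.1‖ ^ 2 * ‖N k p.2‖ ^ 2
        = (∑ j, ‖M i j‖ ^ 2) * (∑ l, ‖N k l‖ ^ 2) := by
    intro i k
    rw [Fintype.sum_prod_type, Finset.sum_mul]
    apply Finset.sum_congr rfl
    intro j _
    rw [Finset.mul_sum]
  simp only [h2]
  simp only [← Finset.mul_sum]
  rw [← Finset.sum_mul]

lemma sqSing_roots {n : Type*} [Fintype n] [DecidableEq n] (M : Matrix n n ℂ) :
    (M * Mᴴ).charpoly.roots = (sqSing M).map (fun a : ℝ => (a : ℂ)) := by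
  rw [(isHermitian_mul_conjTranspose_self M).roots_charpoly_eq_eigenvalues]
  unfold sqSing
  rw [Multiset.map_map]
  rfl

lemma map_ofReal_inj {u v : Multiset ℝ}
    (h : u.map (fun a : ℝ => (a : ℂ)) = v.map (fun a : ℝ => (a : ℂ))) : u = v :=
  Multiset.map_injective Complex.ofReal_injective h

open scoped ComplexOrder in
lemma sqSing_nonneg {n : Type*} [Fintype n] [DecidableEq n] (M : Matrix n n ℂ) :
    ∀ a ∈ sqSing M, 0 ≤ a := by
  intro a ha
  unfold sqSing at ha
  rw [Multiset.mem_map] at ha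
  obtain ⟨i, -, rfl⟩ := ha
  exact (posSemidef_self_mul_conjTranspose M).eigenvalues_nonneg i

lemma sqSing_sum {n : Type*} [Fintype n] [DecidableEq n] (M : Matrix n n ℂ) :
    (sqSing M).sum = ∑ i, ∑ j, ‖M i j‖ ^ 2 := by
  have h1 := (isHermitian_mul_conjTranspose_self M).trace_eq_sum_eigenvalues
  have h2 : (M * Mᴴ).trace = ((∑ i, ∑ j, ‖M i j‖ ^ 2 : ℝ) : ℂ) := by
    rw [Matrix.trace]
    push_cast
    apply Finset.sum_congr rfl
    intro i _
    rw [Matrix.diag_apply, Matrix.mul_apply]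
    apply Finset.sum_congr rfl
    intro j _
    rw [Matrix.conjTranspose_apply]
    exact Complex.mul_conj' _
  rw [h2] at h1
  have h3 : (sqSing M).sum = ∑ i, (isHermitian_mul_conjTranspose_self M).eigenvalues i := rfl
  rw [h3]
  have h4 : ((∑ i, ∑ j, ‖M i j‖ ^ 2 : ℝ) : ℂ)
      = ((∑ i, (isHermitian_mul_conjTranspose_self M).eigenvalues i : ℝ) : ℂ) := by
    rw [h1]
    push_cast
    rfl
  exact (Complex.ofReal_injective h4).symm

lemma charpoly_diagonal_roots {n : Type*} [Fintype n] [DecidableEq n] (f : n → ℂ) :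
    (Matrix.diagonal f).charpoly.roots = (Finset.univ : Finset n).val.map f := by
  rw [Matrix.charpoly_diagonal, Polynomial.roots_prod]
  · simp
  · simp [Finset.prod_ne_zero_iff, Polynomial.X_sub_C_ne_zero]

/-- eigenvalues of a Kronecker product of Hermitian matrices -/
lemma kron_roots {m n : Type*} [Fintype m] [DecidableEq m] [Fintype n] [DecidableEq n]
    (A : Matrix m m ℂ) (B : Matrix n n ℂ) (hA : A.IsHermitian) (hB : B.IsHermitian) :
    (A ⊗ₖ B).charpoly.roots = (Finset.univ : Finset (m × n)).val.map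
      (fun p => ((hA.eigenvalues p.1 * hB.eigenvalues p.2 : ℝ) : ℂ)) := by
  have eA := hA.spectral_theorem
  have eB := hB.spectral_theorem
  rw [Unitary.conjStarAlgAut_apply] at eA eB
  set U : Matrix m m ℂ := (hA.eigenvectorUnitary : Matrix m m ℂ) with hU
  set V : Matrix n n ℂ := (hB.eigenvectorUnitary : Matrix n n ℂ) with hV
  have hUU : star U * U = 1 := Unitary.coe_star_mul_self hA.eigenvectorUnitary
  have hVV : star V * V = 1 := Unitary.coe_star_mul_self hB.eigenvectorUnitary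
  have h1 : A ⊗ₖ B = (U ⊗ₖ V) * (diagonal (RCLike.ofReal ∘ hA.eigenvalues) ⊗ₖ
      diagonal (RCLike.ofReal ∘ hB.eigenvalues)) * (star U ⊗ₖ star V) := by
    rw [← Matrix.mul_kronecker_mul, ← Matrix.mul_kronecker_mul]
    conv_lhs => rw [eA, eB]
  rw [h1, Matrix.charpoly_mul_comm, ← mul_assoc, ← Matrix.mul_kronecker_mul, hUU, hVV,
    Matrix.one_kronecker_one, one_mul, Matrix.diagonal_kronecker_diagonal,
    charpoly_diagonal_roots]
  apply Multiset.map_congr rfl
  intro p _
  simp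

lemma univ_prod_val {m n : Type*} [Fintype m] [Fintype n] :
    (Finset.univ : Finset (m × n)).val
      = (Finset.univ : Finset m).val ×ˢ (Finset.univ : Finset n).val := rfl

lemma map_product_map {α β γ : Type*} (s : Multiset α) (t : Multiset β) (f : α → ℝ) (g : β → ℝ)
    (h : ℝ × ℝ → γ) :
    ((s.map f) ×ˢ (t.map g)).map h = (s ×ˢ t).map (fun p => h (f p.1, g p.2)) := by
  change ((s.map f).bind (fun a => (t.map g).map (Prod.mk a))).map h
    = (s.bind (fun a => t.map (Prod.mk a))).map _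
  rw [Multiset.map_bind, Multiset.map_bind, Multiset.bind_map]
  apply Multiset.bind_congr
  intro a _
  rw [Multiset.map_map, Multiset.map_map, Multiset.map_map]
  rfl

lemma sqSing_tensorAmp {m n : ℕ} (M : Matrix (Fin m) (Fin m) ℂ) (N : Matrix (Fin n) (Fin n) ℂ) :
    sqSing (tensorAmp M N) = mulM (sqSing M) (sqSing N) := by
  apply map_ofReal_inj
  rw [← sqSing_roots]
  have h1 : tensorAmp M N * (tensorAmp M N)ᴴ
      = Matrix.reindex finProdFinEquiv finProdFinEquiv ((M * Mᴴ) ⊗ₖ (N * Nᴴ)) := by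
    rw [Matrix.mul_kronecker_mul]
    ext a b
    rw [Matrix.reindex_apply, Matrix.submatrix_apply, Matrix.mul_apply, Matrix.mul_apply]
    rw [← finProdFinEquiv.sum_comp]
    apply Finset.sum_congr rfl
    intro p _
    simp only [tensorAmp, Matrix.conjTranspose_apply, Matrix.reindex_apply,
      Matrix.submatrix_apply, Matrix.kroneckerMap_apply, Equiv.symm_apply_apply, star_mul']
  rw [h1, Matrix.charpoly_reindex, kron_roots _ _ (isHermitian_mul_conjTranspose_self M)
    (isHermitian_mul_conjTranspose_self N)]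
  unfold mulM sqSing
  rw [map_product_map, Multiset.map_map, univ_prod_val]
  rfl

/-- a diagonal matrix with given squared singular values -/
lemma exists_sqSing (c : Multiset ℝ) (hc : ∀ a ∈ c, 0 ≤ a) :
    ∃ M : Matrix (Fin c.card) (Fin c.card) ℂ, sqSing M = c := by
  obtain ⟨f, hf⟩ := exists_fin_map c c.card rfl
  have hf0 : ∀ i, 0 ≤ f i := fun i => hc _ (by
    rw [← hf]; exact Multiset.mem_map_of_mem _ (Finset.mem_univ i))
  refine ⟨Matrix.diagonal (fun i => ((Real.sqrt (f i) : ℝ) : ℂ)), ?_⟩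
  apply map_ofReal_inj
  rw [← sqSing_roots, Matrix.diagonal_conjTranspose, Matrix.diagonal_mul_diagonal,
    charpoly_diagonal_roots]
  conv_rhs => rw [← hf]
  rw [Multiset.map_map]
  apply Multiset.map_congr rfl
  intro i _
  simp only [Pi.star_apply, Function.comp_apply]
  rw [RCLike.star_def, Complex.conj_ofReal, ← Complex.ofReal_mul, Real.mul_self_sqrt (hf0 i)]

lemma wx_filter (u : Multiset ℝ) (hu : ∀ a ∈ u, 0 ≤ a) (t b : ℝ) :
    wx (u.filter (fun a => 0 < a)) t b = wx u t b := by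
  unfold wx
  exact sum_map_filter_pos (fun a => max (a * b * Real.exp t - 1) 0) (by simp) u hu

lemma W_mulM_filter (u v : Multiset ℝ) (hu : ∀ a ∈ u, 0 ≤ a) (hv : ∀ a ∈ v, 0 ≤ a) (t : ℝ) :
    W (mulM (u.filter (fun a => 0 < a)) (v.filter (fun a => 0 < a))) t = W (mulM u v) t := by
  rw [W_mulM_wx, W_mulM_wx]
  have : wx (u.filter (fun a => 0 < a)) t = wx u t := funext fun b => wx_filter u hu t b
  rw [this]
  exact sum_map_filter_pos _ (wx_zero u t) v hv

lemma good_filter (u : Multiset ℝ) (hu : ∀ a ∈ u, 0 ≤ a) (su : u.sum = 1) :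
    Good (u.filter (fun a => 0 < a)) := by
  intro a ha
  rw [Multiset.mem_filter] at ha
  exact ⟨ha.2, su ▸ Multiset.single_le_sum hu a ha.1⟩

lemma mulM_nonneg {u v : Multiset ℝ} (hu : ∀ a ∈ u, 0 ≤ a) (hv : ∀ a ∈ v, 0 ≤ a) :
    ∀ a ∈ mulM u v, 0 ≤ a := by
  intro c hc
  rw [mem_mulM] at hc
  obtain ⟨a, ha, b, hb, rfl⟩ := hc
  exact mul_nonneg (hu a ha) (hv b hb)

lemma filter_of_good {c : Multiset ℝ} (hc : Good c) : c.filter (fun a => 0 < a) = c :=
  Multiset.filter_eq_self.2 fun a ha => (hc a ha).1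

end Pool.Agent.Q19.LC
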