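import Pool.Agent.Q19.LC.ChainB
import Pool.Agent.Q19.LC.Lap

/-!
The strict inequalities give a catalyst (Klimesh-Turgut theorem, the hard direction).
-/

namespace Pool.Agent.Q19.LC

open Multiset Filter Topology Polynomial

lemma W_ge_single (u : Multiset ℝ) (a : ℝ) (ha : a ∈ u) (t : ℝ) : a * Real.exp t - 1 ≤ W u t := by
  obtain ⟨v, rfl⟩ := Multiset.exists_cons_of_mem ha
  have h : W (a ::ₘ v) t = max (a * Real.exp t - 1) 0 + W v t := by
    simp only [W, Multiset.map_cons, Multiset.sum_cons]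
  rw [h]
  have := W_nonneg v t
  have := le_max_left (a * Real.exp t - 1) 0
  linarith

lemma W_ge_lin (u : Multiset ℝ) (t : ℝ) : u.sum * Real.exp t - u.card ≤ W u t := by
  induction u using Multiset.induction_on with
  | empty => simp [W]
  | cons a v ih =>
    have h : W (a ::ₘ v) t = max (a * Real.exp t - 1) 0 + W v t := by
      simp only [W, Multiset.map_cons, Multiset.sum_cons]
    rw [h, Multiset.sum_cons, Multiset.card_cons]
    have := le_max_left (a * Real.exp t - 1) 0
    push_cast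
    linarith

section trunc

variable (D : ℝ → ℝ) (hD : Continuous D)

include hD

lemma FD_int (r a b : ℝ) : IntervalIntegrable (fun t => Real.exp (-(r * t)) * D t)
    MeasureTheory.volume a b :=
  Continuous.intervalIntegrable (by fun_prop) _ _

lemma FD_cont (T : ℝ) : Continuous (fun r : ℝ => ∫ t in (0 : ℝ)..T, Real.exp (-(r * t)) * D t) := by
  apply intervalIntegral.continuous_parametric_intervalIntegral_of_continuous'
  change Continuous (fun q : ℝ × ℝ => Real.exp (-(q.1 * q.2)) * D q.2)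
  fun_prop

lemma FD_mono (T0 : ℝ) (h0 : ∀ t, T0 ≤ t → 0 ≤ D t) (r T T' : ℝ) (hT : T0 ≤ T) (hTT : T ≤ T') :
    ∫ t in (0 : ℝ)..T, Real.exp (-(r * t)) * D t ≤ ∫ t in (0 : ℝ)..T', Real.exp (-(r * t)) * D t := by
  rw [← intervalIntegral.integral_add_adjacent_intervals (FD_int D hD r 0 T) (FD_int D hD r T T')]
  have : 0 ≤ ∫ t in T..T', Real.exp (-(r * t)) * D t := by
    apply intervalIntegral.integral_nonneg hTT
    intro t ht
    exact mul_nonneg (Real.exp_pos _).le (h0 t (hT.trans ht.1))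
  linarith

/-- for nonpositive exponents -/
lemma FD_nonpos (T0 C d : ℝ) (hT0 : 0 ≤ T0) (hC : 0 ≤ C) (hd : 0 < d)
    (hDC : ∀ t, 0 ≤ t → t ≤ T0 → -C ≤ D t) (hDd : ∀ t, T0 ≤ t → d ≤ D t)
    (T : ℝ) (hT : C * T0 / d < T - T0) (r : ℝ) (hr : r ≤ 0) :
    0 < ∫ t in (0 : ℝ)..T, Real.exp (-(r * t)) * D t := by
  have hT' : T0 ≤ T := by
    have : 0 ≤ C * T0 / d := by positivity
    linarith
  rw [← intervalIntegral.integral_add_adjacent_intervals (FD_int D hD r 0 T0)
    (FD_int D hD r T0 T)]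
  have h1 : -(C * T0) * Real.exp (-(r * T0)) ≤ ∫ t in (0 : ℝ)..T0, Real.exp (-(r * t)) * D t := by
    have h2 : ∫ t in (0 : ℝ)..T0, (-C * Real.exp (-(r * T0)))
        = -(C * T0) * Real.exp (-(r * T0)) := by
      rw [intervalIntegral.integral_const, smul_eq_mul]; ring
    rw [← h2]
    apply intervalIntegral.integral_mono_on hT0 (by simp) (FD_int D hD r 0 T0)
    intro t ht
    have g1 : Real.exp (-(r * t)) ≤ Real.exp (-(r * T0)) := by
      apply Real.exp_le_exp.2
      have := mul_le_mul_of_nonpos_left ht.2 hr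
      linarith
    have g2 := mul_le_mul_of_nonneg_left (hDC t ht.1 ht.2) (Real.exp_pos (-(r * t))).le
    have g3 := mul_le_mul_of_nonneg_left g1 hC
    linarith
  have h3 : d * (T - T0) * Real.exp (-(r * T0)) ≤ ∫ t in T0..T, Real.exp (-(r * t)) * D t := by
    have h2 : ∫ t in T0..T, (d * Real.exp (-(r * T0)))
        = d * (T - T0) * Real.exp (-(r * T0)) := by
      rw [intervalIntegral.integral_const, smul_eq_mul]; ring
    rw [← h2]
    apply intervalIntegral.integral_mono_on hT' (by simp) (FD_int D hD r T0 T)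
    intro t ht
    have g1 : Real.exp (-(r * T0)) ≤ Real.exp (-(r * t)) := by
      apply Real.exp_le_exp.2
      have := mul_le_mul_of_nonpos_left ht.1 hr
      linarith
    rw [mul_comm d]
    exact mul_le_mul g1 (hDd t ht.1) hd.le (Real.exp_pos _).le
  rw [div_lt_iff₀ hd] at hT
  have h4 := mul_pos (by linarith : 0 < d * (T - T0) - C * T0) (Real.exp_pos (-(r * T0)))
  linarith

/-- for large exponents -/
lemma FD_large (T0 C A1 A2 κ : ℝ) (hC : 0 ≤ C) (hA1 : 0 ≤ A1) (hA : A1 < A2)
    (hA2 : A2 ≤ T0) (hκ : 0 < κ)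
    (hDC : ∀ t, 0 ≤ t → t ≤ T0 → -C ≤ D t)
    (hAκ : ∀ t, A1 ≤ t → t ≤ A2 → κ ≤ D t) (hA0 : ∀ t, 0 ≤ t → t ≤ A2 → 0 ≤ D t) :
    ∃ R0 : ℝ, 0 ≤ R0 ∧ ∀ r : ℝ, R0 ≤ r → 0 < ∫ t in (0 : ℝ)..T0, Real.exp (-(r * t)) * D t := by
  set M := (A1 + A2) / 2 with hM
  obtain ⟨R0, hR0, hR⟩ : ∃ R0 : ℝ, 0 ≤ R0 ∧ ∀ r, R0 ≤ r →
      (T0 - A2) * C * Real.exp (-(r * (A2 - M))) < (M - A1) * κ := by
    have h1 : Tendsto (fun r : ℝ => (T0 - A2) * C * Real.exp (-(r * (A2 - M)))) atTop
        (𝓝 ((T0 - A2) * C * 0)) := by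
      apply Tendsto.const_mul
      have h2 : Tendsto (fun r : ℝ => r * (A2 - M)) atTop atTop :=
        tendsto_id.atTop_mul_const (by linarith)
      exact Real.tendsto_exp_neg_atTop_nhds_zero.comp h2
    rw [mul_zero] at h1
    have h3 := h1.eventually (gt_mem_nhds (mul_pos (by linarith) hκ : (0 : ℝ) < (M - A1) * κ))
    obtain ⟨R, hR⟩ := eventually_atTop.1 h3
    exact ⟨max R 0, le_max_right _ _, fun r hr => hR r ((le_max_left _ _).trans hr)⟩
  refine ⟨R0, hR0, fun r hr => ?_⟩
  have hr0 : 0 ≤ r := hR0.trans hr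
  rw [← intervalIntegral.integral_add_adjacent_intervals (FD_int D hD r 0 A1)
    (FD_int D hD r A1 T0), ← intervalIntegral.integral_add_adjacent_intervals
    (FD_int D hD r A1 M) (FD_int D hD r M T0), ← intervalIntegral.integral_add_adjacent_intervals
    (FD_int D hD r M A2) (FD_int D hD r A2 T0)]
  have h1 : 0 ≤ ∫ t in (0 : ℝ)..A1, Real.exp (-(r * t)) * D t := by
    apply intervalIntegral.integral_nonneg hA1
    intro t ht
    exact mul_nonneg (Real.exp_pos _).le (hA0 t ht.1 (by linarith [ht.2]))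
  have h2 : 0 ≤ ∫ t in M..A2, Real.exp (-(r * t)) * D t := by
    apply intervalIntegral.integral_nonneg (by linarith)
    intro t ht
    exact mul_nonneg (Real.exp_pos _).le (hA0 t (by linarith [ht.1]) ht.2)
  have h3 : (M - A1) * κ * Real.exp (-(r * M)) ≤ ∫ t in A1..M, Real.exp (-(r * t)) * D t := by
    have h4 : ∫ t in A1..M, (κ * Real.exp (-(r * M))) = (M - A1) * κ * Real.exp (-(r * M)) := by
      rw [intervalIntegral.integral_const, smul_eq_mul]; ring
    rw [← h4]
    apply intervalIntegral.integral_mono_on (by linarith) (by simp) (FD_int D hD r A1 M)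
    intro t ht
    have g1 : Real.exp (-(r * M)) ≤ Real.exp (-(r * t)) := by
      apply Real.exp_le_exp.2
      have := mul_le_mul_of_nonneg_left ht.2 hr0
      linarith
    rw [mul_comm κ]
    exact mul_le_mul g1 (hAκ t ht.1 (by linarith [ht.2])) hκ.le (Real.exp_pos _).le
  have h5 : -((T0 - A2) * C) * Real.exp (-(r * A2))
      ≤ ∫ t in A2..T0, Real.exp (-(r * t)) * D t := by
    have h4 : ∫ t in A2..T0, (-C * Real.exp (-(r * A2)))
        = -((T0 - A2) * C) * Real.exp (-(r * A2)) := by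
      rw [intervalIntegral.integral_const, smul_eq_mul]; ring
    rw [← h4]
    apply intervalIntegral.integral_mono_on hA2 (by simp) (FD_int D hD r A2 T0)
    intro t ht
    have g1 : Real.exp (-(r * t)) ≤ Real.exp (-(r * A2)) := by
      apply Real.exp_le_exp.2
      have := mul_le_mul_of_nonneg_left ht.1 hr0
      linarith
    have g2 := mul_le_mul_of_nonneg_left (hDC t (by linarith [ht.1]) ht.2)
      (Real.exp_pos (-(r * t))).le
    have g3 := mul_le_mul_of_nonneg_left g1 hC
    linarith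
  have h6 : Real.exp (-(r * A2)) = Real.exp (-(r * (A2 - M))) * Real.exp (-(r * M)) := by
    rw [← Real.exp_add]; congr 1; ring
  have h7 := mul_lt_mul_of_pos_right (hR r hr) (Real.exp_pos (-(r * M)))
  rw [h6] at h5
  linarith

end trunc

/-- truncation point with positive truncated transform, together with the right end data -/
lemma exists_trunc (x y : Multiset ℝ) (hx : Good x) (hy : Good y) (hs : x.sum = y.sum)
    (h1 : ∀ r : ℝ, 0 < r → J r x < J r y) (h2 : y.card ≤ x.card)
    (h3 : x.card = y.card → ∀ r : ℝ, r ≤ 0 → J r x < J r y)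
    (hmin : x.card = y.card → ∃ X0 ∈ x, ∃ Y0 ∈ y, (∀ a ∈ x, X0 ≤ a) ∧ Y0 < X0)
    (A1 A2 κ : ℝ) (hA1 : 0 ≤ A1) (hA : A1 < A2) (hκ : 0 < κ)
    (hAκ : ∀ t, A1 ≤ t → t ≤ A2 → κ ≤ W y t - W x t)
    (hA0 : ∀ t, 0 ≤ t → t ≤ A2 → 0 ≤ W y t - W x t)
    (hA2 : ∃ a ∈ x, A2 ≤ -Real.log a) :
    ∃ T : ℝ, 0 < T ∧ A2 ≤ T ∧ (∀ r : ℝ, 0 < ∫ t in (0 : ℝ)..T, Real.exp (-(r * t)) *
        (W y t - W x t)) ∧ (∀ t, T ≤ t → 0 ≤ W y t - W x t) ∧
      ∃ B1 B2 κ' : ℝ, 0 ≤ B1 ∧ B1 < B2 ∧ B2 ≤ T ∧ 0 < κ' ∧
        (∀ t, B1 ≤ t → t ≤ B2 → κ' ≤ W y t - W x t) ∧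
        (∀ t, B1 ≤ t → t ≤ T → 0 ≤ W y t - W x t) := by
  have hD : Continuous (fun t => W y t - W x t) := (continuous_W y).sub (continuous_W x)
  obtain ⟨Tx, hTx0, hTx⟩ := exists_T x
  obtain ⟨Ty, hTy0, hTy⟩ := exists_T y
  set T0 := max Tx Ty with hT0
  have hT00 : 0 ≤ T0 := hTx0.trans (le_max_left _ _)
  have hDT0 : ∀ t, T0 ≤ t → W y t - W x t = (x.card : ℝ) - y.card := by
    intro t ht
    rw [W_large x hx t (hTx t ((le_max_left _ _).trans ht)),
      W_large y hy t (hTy t ((le_max_right _ _).trans ht)), hs]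
    ring
  have hcards : (y.card : ℝ) ≤ x.card := by exact_mod_cast h2
  have hA2T0 : A2 ≤ T0 := by
    obtain ⟨a, ha, haA⟩ := hA2
    exact haA.trans ((hTx Tx le_rfl a ha).trans (le_max_left _ _))
  have hT0pos : 0 < T0 := by linarith
  by_cases hc : x.card = y.card
  · refine ⟨T0, hT0pos, hA2T0, ?_, fun t ht => by rw [hDT0 t ht]; linarith, ?_⟩
    · intro r
      rw [← F_sub_eq, F_eval x hx r T0 (hTx T0 (le_max_left _ _)),
        F_eval y hy r T0 (hTy T0 (le_max_right _ _)), hs, hc]
      have : J r x < J r y := by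
        rcases lt_or_ge 0 r with h | h
        · exact h1 r h
        · exact h3 hc r h
      linarith
    · obtain ⟨X0, hX0, Y0, hY0, hXm, hlt⟩ := hmin hc
      have hX0p := (hx X0 hX0).1
      have hY0p := (hy Y0 hY0).1
      have hlog : Real.log Y0 < Real.log X0 := Real.log_lt_log hY0p hlt
      have hwx : ∀ t, -Real.log X0 ≤ t → W x t = x.sum * Real.exp t - x.card := by
        intro t ht
        apply W_large x hx
        intro a ha
        have := Real.log_le_log hX0p (hXm a ha)
        linarith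
      have hnn : ∀ t, -Real.log X0 ≤ t → 0 ≤ W y t - W x t := by
        intro t ht
        rw [hwx t ht]
        have := W_ge_lin y t
        rw [hs, hc]
        linarith
      have hB2T : (-Real.log X0 - Real.log Y0) / 2 ≤ T0 := by
        have := (hTy Ty le_rfl Y0 hY0).trans (le_max_right Tx Ty)
        linarith
      refine ⟨-Real.log X0, (-Real.log X0 - Real.log Y0) / 2,
        1 - Y0 * Real.exp ((-Real.log X0 - Real.log Y0) / 2), ?_, by linarith, hB2T, ?_, ?_, ?_⟩
      · have := Real.log_nonpos hX0p.le (hx X0 hX0).2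
        linarith
      · have g1 : Real.exp ((-Real.log X0 - Real.log Y0) / 2) < Real.exp (-Real.log Y0) :=
          Real.exp_lt_exp.2 (by linarith)
        rw [Real.exp_neg, Real.exp_log hY0p] at g1
        have g2 := mul_lt_mul_of_pos_left g1 hY0p
        rw [mul_inv_cancel₀ hY0p.ne'] at g2
        linarith
      · intro t ht1 ht2
        rw [hwx t ht1]
        obtain ⟨v, hv⟩ := Multiset.exists_cons_of_mem hY0
        have g1 : W y t = max (Y0 * Real.exp t - 1) 0 + W v t := by
          rw [hv]; simp only [W, Multiset.map_cons, Multiset.sum_cons]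
        have g2 := W_ge_lin v t
        have g3 : y.sum = Y0 + v.sum := by rw [hv, Multiset.sum_cons]
        have g4 : (y.card : ℝ) = v.card + 1 := by rw [hv, Multiset.card_cons]; push_cast; ring
        have g5 := le_max_right (Y0 * Real.exp t - 1) 0
        have g6 : Y0 * Real.exp t ≤ Y0 * Real.exp ((-Real.log X0 - Real.log Y0) / 2) :=
          mul_le_mul_of_nonneg_left (Real.exp_le_exp.2 ht2) hY0p.le
        rw [g1, hs, g3, hc, g4]
        linarith
      · intro t ht1 _
        exact hnn t ht1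
  · have hdpos : (0 : ℝ) < (x.card : ℝ) - y.card := by
      have : y.card < x.card := lt_of_le_of_ne h2 (Ne.symm hc)
      have : (y.card : ℝ) < x.card := by exact_mod_cast this
      linarith
    set d := (x.card : ℝ) - y.card with hd
    obtain ⟨C, hC0, hC⟩ : ∃ C : ℝ, 0 ≤ C ∧ ∀ t, 0 ≤ t → t ≤ T0 → -C ≤ W y t - W x t := by
      obtain ⟨m, -, hm⟩ := isCompact_Icc.exists_isMinOn (Set.nonempty_Icc.2 hT00) hD.continuousOn
      refine ⟨|W y m - W x m|, abs_nonneg _, fun t h0 h1 => ?_⟩
      have h2 : W y m - W x m ≤ W y t - W x t := hm ⟨h0, h1⟩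
      have := neg_abs_le (W y m - W x m)
      linarith
    have hDnn : ∀ t, T0 ≤ t → 0 ≤ W y t - W x t := fun t ht => by rw [hDT0 t ht]; exact hdpos.le
    set Tb := T0 + C * T0 / d + 1 with hTb
    have hTbT0 : T0 + 1 ≤ Tb := by
      have : 0 ≤ C * T0 / d := by positivity
      linarith
    have hneg : ∀ T, Tb ≤ T → ∀ r : ℝ, r ≤ 0 →
        0 < ∫ t in (0 : ℝ)..T, Real.exp (-(r * t)) * (W y t - W x t) := by
      intro T hT r hr
      exact FD_nonpos _ hD T0 C d hT00 hC0 hdpos hC (fun t ht => (hDT0 t ht).ge) T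
        (by linarith) r hr
    obtain ⟨R0, hR0, hR⟩ := FD_large _ hD T0 C A1 A2 κ hC0 hA1 hA hA2T0 hκ hC hAκ hA0
    -- compactness
    obtain ⟨n, hn⟩ : ∃ n : ℕ, Set.Icc 0 R0 ⊆ {r : ℝ | 0 <
        ∫ t in (0 : ℝ)..(Tb + n), Real.exp (-(r * t)) * (W y t - W x t)} := by
      apply isCompact_Icc.elim_directed_cover (fun n : ℕ => {r : ℝ | 0 <
        ∫ t in (0 : ℝ)..(Tb + n), Real.exp (-(r * t)) * (W y t - W x t)})
      · intro n
        exact isOpen_lt continuous_const (FD_cont _ hD (Tb + n))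
      · intro r hr
        rw [Set.mem_iUnion]
        rcases hr.1.eq_or_lt with h0 | h0
        · exact ⟨0, hneg _ (by simp) r h0.symm.le⟩
        · have hlim := F_sub_tendsto x y hx hy hs r (Or.inl h0)
          have hpos : 0 < J r y - J r x := by have := h1 r h0; linarith
          have hev := hlim.eventually (lt_mem_nhds hpos)
          obtain ⟨T1, hT1⟩ := eventually_atTop.1 hev
          obtain ⟨n, hn⟩ := exists_nat_ge (T1 - Tb)
          refine ⟨n, ?_⟩
          have := hT1 (Tb + n) (by linarith)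
          rw [F_sub_eq] at this
          exact this
      · apply Monotone.directed_le
        intro m n hmn r hr
        have hmn' : (m : ℝ) ≤ n := by exact_mod_cast hmn
        have hm0 : (0 : ℝ) ≤ m := Nat.cast_nonneg m
        exact lt_of_lt_of_le hr (FD_mono _ hD T0 hDnn r _ _ (by linarith) (by linarith))
    have hn0 : (0 : ℝ) ≤ n := Nat.cast_nonneg n
    refine ⟨Tb + n, by linarith, by linarith, ?_, fun t ht => hDnn t (by linarith),
      T0, Tb + n, d, hT00, by linarith, le_refl _, hdpos, ?_, ?_⟩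
    · intro r
      rcases le_or_gt r 0 with h | h
      · exact hneg _ (by linarith) r h
      · rcases le_or_gt r R0 with h' | h'
        · exact hn ⟨h.le, h'⟩
        · exact lt_of_lt_of_le (hR r h'.le) (FD_mono _ hD T0 hDnn r _ _ le_rfl (by linarith))
    · intro t ht _
      exact (hDT0 t ht).ge
    · intro t ht _
      exact hDnn t ht

/-- the catalyst built from the binomial coefficients -/
noncomputable def cat (N : ℕ) (δ Z : ℝ) : Multiset ℝ :=
  (Multiset.range (N + 1)).bind (fun k => Multiset.replicate (N.choose k) (Real.exp (-(k * δ)) / Z))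

lemma sum_map_cat (N : ℕ) (δ Z : ℝ) (g : ℝ → ℝ) :
    ((cat N δ Z).map g).sum
      = ∑ k ∈ Finset.range (N + 1), (N.choose k : ℝ) * g (Real.exp (-(k * δ)) / Z) := by
  unfold cat
  rw [Multiset.map_bind, Multiset.sum_bind]
  have : ∀ k, (Multiset.map g (Multiset.replicate (N.choose k) (Real.exp (-(k * δ)) / Z))).sum
      = (N.choose k : ℝ) * g (Real.exp (-(k * δ)) / Z) := by
    intro k
    rw [Multiset.map_replicate, Multiset.sum_replicate, nsmul_eq_mul]
  simp only [this]
  rfl

lemma conv_nonneg (D : ℝ → ℝ) (T : ℝ) (L : ℕ) (hT : 0 < T) (hL : 0 < L) (a : ℕ → ℝ)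
    (ha : ∀ j < L, ∀ t, j * (T / L) ≤ t → t ≤ (j + 1) * (T / L) → a j ≤ D t)
    (h0 : ∀ t, t ≤ 0 → D t = 0) (hTn : ∀ t, T ≤ t → 0 ≤ D t) (N : ℕ)
    (hN : CN ((1 + X) ^ N * ∑ j ∈ Finset.range L, C (a j) * X ^ j)) (t : ℝ) :
    0 ≤ ∑ k ∈ Finset.range (N + 1), (N.choose k : ℝ) * D (t - k * (T / L)) := by
  have hLpos : (0 : ℝ) < L := by exact_mod_cast hL
  set δ := T / L with hδ
  have hδpos : 0 < δ := div_pos hT hLpos
  have hδL : (L : ℝ) * δ = T := by rw [hδ]; field_simp
  set P : ℝ[X] := ∑ j ∈ Finset.range L, C (a j) * X ^ j with hP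
  have hcoeff : ∀ j, P.coeff j = if j < L then a j else 0 := by
    intro j
    rw [hP, finset_sum_coeff]
    simp only [coeff_C_mul, coeff_X_pow]
    by_cases hj : j < L
    · rw [if_pos hj, Finset.sum_eq_single j]
      · simp
      · intro b _ hb
        rw [if_neg (Ne.symm hb), mul_zero]
      · intro h
        exact absurd (Finset.mem_range.2 hj) h
    · rw [if_neg hj]
      apply Finset.sum_eq_zero
      intro b hb
      rw [if_neg, mul_zero]
      rintro rfl
      exact hj (Finset.mem_range.1 hb)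
  rcases lt_or_ge t 0 with ht | ht
  · apply Finset.sum_nonneg
    intro k _
    rw [h0 _ (by
      have : 0 ≤ (k : ℝ) * δ := by positivity
      linarith), mul_zero]
  · set m := ⌊t / δ⌋₊ with hm
    have hm1 : (m : ℝ) * δ ≤ t := by
      have := Nat.floor_le (div_nonneg ht hδpos.le)
      rwa [le_div_iff₀ hδpos] at this
    have hm2 : t < (m + 1) * δ := by
      have := Nat.lt_floor_add_one (t / δ)
      rwa [div_lt_iff₀ hδpos] at this
    have hterm : ∀ k ∈ Finset.range (N + 1),
        (if k ≤ m then (N.choose k : ℝ) * P.coeff (m - k) else 0)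
          ≤ (N.choose k : ℝ) * D (t - k * δ) := by
      intro k _
      have hck : (0 : ℝ) ≤ N.choose k := Nat.cast_nonneg _
      by_cases hk : k ≤ m
      · rw [if_pos hk]
        apply mul_le_mul_of_nonneg_left _ hck
        have hcast : ((m - k : ℕ) : ℝ) = m - k := by rw [Nat.cast_sub hk]
        rw [hcoeff]
        by_cases hmk : m - k < L
        · rw [if_pos hmk]
          apply ha _ hmk
          · rw [hcast, sub_mul]; linarith
          · rw [hcast, add_mul, sub_mul]
            rw [add_mul] at hm2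
            linarith
        · rw [if_neg hmk]
          apply hTn
          push Not at hmk
          have h5 : (L : ℝ) ≤ ((m - k : ℕ) : ℝ) := by exact_mod_cast hmk
          rw [hcast] at h5
          have h6 := mul_le_mul_of_nonneg_right h5 hδpos.le
          rw [hδL, sub_mul] at h6
          linarith
      · rw [if_neg hk]
        push Not at hk
        rw [h0 _ (by
          have h5 : (m : ℝ) + 1 ≤ k := by exact_mod_cast hk
          have h6 := mul_le_mul_of_nonneg_right h5 hδpos.le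
          linarith), mul_zero]
    refine le_trans ?_ (Finset.sum_le_sum hterm)
    have h7 := hN m
    rw [coeff_mul, Finset.Nat.sum_antidiagonal_eq_sum_range_succ
      (fun i j => ((1 + X : ℝ[X]) ^ N).coeff i * P.coeff j)] at h7
    simp only [coeff_one_add_X_pow] at h7
    refine h7.trans (le_of_eq ?_)
    rw [← Finset.sum_filter]
    symm
    apply Finset.sum_subset
    · intro k hk
      rw [Finset.mem_filter] at hk
      rw [Finset.mem_range]
      omega
    · intro k hk hk'
      rw [Finset.mem_range] at hk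
      rw [Finset.mem_filter, Finset.mem_range] at hk'
      have : N < k := by
        by_contra hcon
        exact hk' ⟨by omega, by omega⟩
      rw [Nat.choose_eq_zero_of_lt this]
      simp

/-- the hard direction of the Klimesh-Turgut theorem -/
theorem exists_catalyst (x y : Multiset ℝ) (hx : Good x) (hy : Good y) (hs : x.sum = y.sum)
    (h1 : ∀ r : ℝ, 0 < r → J r x < J r y) (h2 : y.card ≤ x.card)
    (h3 : x.card = y.card → ∀ r : ℝ, r ≤ 0 → J r x < J r y)
    (hmin : x.card = y.card → ∃ X0 ∈ x, ∃ Y0 ∈ y, (∀ a ∈ x, X0 ≤ a) ∧ Y0 < X0)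
    (X0 Y0 : ℝ) (hX0 : X0 ∈ x) (hXm : ∀ a ∈ x, a ≤ X0) (hY0 : Y0 ∈ y) (hXY : X0 < Y0) :
    ∃ c : Multiset ℝ, Good c ∧ c.sum = 1 ∧ ∀ t, W (mulM x c) t ≤ W (mulM y c) t := by
  have hX0p := (hx X0 hX0).1
  have hY0p := (hy Y0 hY0).1
  have hlog : Real.log X0 < Real.log Y0 := Real.log_lt_log hX0p hXY
  set A2 := -Real.log X0 with hA2
  set A1 := (-Real.log X0 - Real.log Y0) / 2 with hA1
  have hA1A2 : A1 < A2 := by rw [hA1, hA2]; linarith
  have hA1Y : -Real.log Y0 < A1 := by rw [hA1]; linarith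
  have hA10 : 0 ≤ A1 := by
    have := Real.log_nonpos hY0p.le (hy Y0 hY0).2
    linarith
  have hWx : ∀ t, t ≤ A2 → W x t = 0 := by
    intro t ht
    apply W_small x hx
    intro a ha
    have := Real.log_le_log (hx a ha).1 (hXm a ha)
    linarith
  have hκ : 0 < Y0 * Real.exp A1 - 1 := by
    have g1 : Real.exp (-Real.log Y0) < Real.exp A1 := Real.exp_lt_exp.2 hA1Y
    rw [Real.exp_neg, Real.exp_log hY0p] at g1
    have g2 := mul_lt_mul_of_pos_left g1 hY0p
    rw [mul_inv_cancel₀ hY0p.ne'] at g2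
    linarith
  have hAκ : ∀ t, A1 ≤ t → t ≤ A2 → Y0 * Real.exp A1 - 1 ≤ W y t - W x t := by
    intro t ht1 ht2
    rw [hWx t ht2, sub_zero]
    refine le_trans ?_ (W_ge_single y Y0 hY0 t)
    have := mul_le_mul_of_nonneg_left (Real.exp_le_exp.2 ht1) hY0p.le
    linarith
  have hA0 : ∀ t, 0 ≤ t → t ≤ A2 → 0 ≤ W y t - W x t := by
    intro t _ ht2
    rw [hWx t ht2, sub_zero]
    exact W_nonneg y t
  obtain ⟨T, hT, hA2T, hF, hTn, B1, B2, κ', hB1, hB, hB2, hκ', hBκ, hB0⟩ :=
    exists_trunc x y hx hy hs h1 h2 h3 hmin A1 A2 _ hA10 hA1A2 hκ hAκ hA0 ⟨X0, hX0, le_refl _⟩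
  have hD : Continuous (fun t => W y t - W x t) := (continuous_W y).sub (continuous_W x)
  obtain ⟨L, hL, a, ha, hpos⟩ := exists_step _ hD T hT hF A1 A2 _ hA10 hA1A2 hA2T hκ hAκ hA0
    B1 B2 κ' hB1 hB hB2 hκ' hBκ hB0
  obtain ⟨N, hN⟩ := polya (∑ j ∈ Finset.range L, C (a j) * X ^ j) (by
    intro s hs
    rw [eval_finset_sum]
    simp only [eval_mul, eval_C, eval_pow, eval_X]
    exact hpos s hs)
  have hzero : ∀ t, t ≤ 0 → W y t - W x t = 0 := by
    intro t ht
    rw [W_small x hx t (fun a ha => by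
      have := Real.log_nonpos (hx a ha).1.le (hx a ha).2; linarith),
      W_small y hy t (fun a ha => by
      have := Real.log_nonpos (hy a ha).1.le (hy a ha).2; linarith), sub_zero]
  have hconv := conv_nonneg _ T L hT hL a ha hzero hTn N hN
  set δ := T / L with hδ
  have hδpos : 0 < δ := div_pos hT (by exact_mod_cast hL)
  set Z : ℝ := ∑ k ∈ Finset.range (N + 1), (N.choose k : ℝ) * Real.exp (-(k * δ)) with hZ
  have hZ1 : 1 ≤ Z := by
    have : (N.choose 0 : ℝ) * Real.exp (-((0 : ℕ) * δ)) ≤ Z := by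
      apply Finset.single_le_sum (f := fun k : ℕ => (N.choose k : ℝ) * Real.exp (-(k * δ)))
      · intro k _
        positivity
      · simp
    simpa using this
  have hZpos : 0 < Z := by linarith
  have hmem : ∀ b ∈ cat N δ Z, ∃ k : ℕ, b = Real.exp (-(k * δ)) / Z := by
    intro b hb
    unfold cat at hb
    rw [Multiset.mem_bind] at hb
    obtain ⟨k, -, hb⟩ := hb
    exact ⟨k, Multiset.eq_of_mem_replicate hb⟩
  have hcg : Good (cat N δ Z) := by
    intro b hb
    obtain ⟨k, rfl⟩ := hmem b hb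
    refine ⟨by positivity, ?_⟩
    rw [div_le_one hZpos]
    have h5 : Real.exp (-(k * δ)) ≤ 1 := by
      rw [Real.exp_le_one_iff]
      have : 0 ≤ (k : ℝ) * δ := by positivity
      linarith
    linarith
  refine ⟨cat N δ Z, hcg, ?_, fun t => ?_⟩
  · have h5 := sum_map_cat N δ Z (fun b => b)
    rw [Multiset.map_id'] at h5
    rw [h5]
    have h6 : ∑ k ∈ Finset.range (N + 1), (N.choose k : ℝ) * (Real.exp (-(k * δ)) / Z)
        = Z / Z := by
      conv_rhs => rw [hZ]
      rw [Finset.sum_div]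
      apply Finset.sum_congr rfl
      intro k _
      rw [mul_div_assoc]
    rw [h6, div_self hZpos.ne']
  · rw [W_mulM x _ (fun b hb => (hcg b hb).1), W_mulM y _ (fun b hb => (hcg b hb).1),
      sum_map_cat, sum_map_cat, ← sub_nonneg, ← Finset.sum_sub_distrib]
    have h5 := hconv (t - Real.log Z)
    refine h5.trans (le_of_eq ?_)
    apply Finset.sum_congr rfl
    intro k _
    have h6 : t - Real.log Z - k * δ = t + Real.log (Real.exp (-(k * δ)) / Z) := by
      rw [Real.log_div (Real.exp_pos _).ne' hZpos.ne', Real.log_exp]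
      ring
    rw [h6]
    ring

/-- chains give single catalysts -/
theorem catalyst_of_chain (x y : Multiset ℝ) (hx : Good x) (hy : Good y) (sx : x.sum = 1)
    (sy : y.sum = 1) (e : ℕ → Multiset ℝ) (h : Chain x y e) :
    ∃ c : Multiset ℝ, Good c ∧ c.sum = 1 ∧ ∀ t, W (mulM x c) t ≤ W (mulM y c) t := by
  classical
  by_cases hxy : x = y
  · subst hxy
    exact ⟨{1}, by
      intro a ha
      rw [Multiset.mem_singleton] at ha
      subst ha
      exact ⟨one_pos, le_refl _⟩, by simp, fun t => le_refl _⟩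
  set x' := x - y with hx'
  set y' := y - x with hy'
  set z := x ∩ y with hz
  have ex : x = x' + z := (Multiset.sub_add_inter x y).symm
  have ey : y = y' + z := by
    rw [hz, Multiset.inter_comm]
    exact (Multiset.sub_add_inter y x).symm
  have gx : Good x' := fun a ha => hx a (by rw [ex]; exact Multiset.mem_add.2 (Or.inl ha))
  have gy : Good y' := fun a ha => hy a (by rw [ey]; exact Multiset.mem_add.2 (Or.inl ha))
  have gz : Good z := fun a ha => hx a (by rw [ex]; exact Multiset.mem_add.2 (Or.inr ha))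
  have hdisj : ∀ a ∈ x', ∀ b ∈ y', a ≠ b := by
    intro a ha b hb hab
    subst hab
    rw [hx', Multiset.mem_sub] at ha
    rw [hy', Multiset.mem_sub] at hb
    omega
  have hsum : x'.sum = y'.sum := by
    have e1 := congrArg Multiset.sum ex
    have e2 := congrArg Multiset.sum ey
    rw [Multiset.sum_add] at e1 e2
    linarith
  have hne_of : x' ≠ 0 ∨ y' ≠ 0 := by
    by_contra hcon
    push Not at hcon
    apply hxy
    rw [ex, ey, hcon.1, hcon.2]
  have hx'0 : x' ≠ 0 := by
    intro h0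
    rcases hne_of with h1 | h1
    · exact h1 h0
    · obtain ⟨a, ha⟩ := Multiset.exists_mem_of_ne_zero h1
      have := Multiset.single_le_sum (fun b hb => (gy b hb).1.le) a ha
      rw [← hsum, h0, Multiset.sum_zero] at this
      have := (gy a ha).1
      linarith
  have hy'0 : y' ≠ 0 := by
    intro h0
    obtain ⟨a, ha⟩ := Multiset.exists_mem_of_ne_zero hx'0
    have := Multiset.single_le_sum (fun b hb => (gx b hb).1.le) a ha
    rw [hsum, h0, Multiset.sum_zero] at this
    have := (gx a ha).1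
    linarith
  have hpw : ∀ s : ℝ, 1 < s → pw s x' ≤ pw s y' := by
    intro s hs
    have h1 := pw_le_of_chain hx hy sx sy h s hs
    rw [ex, ey, pw_add, pw_add] at h1
    linarith
  obtain ⟨X0, hX0, hXm⟩ := exists_max x' hx'0
  obtain ⟨Y0, hY0, hYm⟩ := exists_max y' hy'0
  have hXY := max_lt x' y' gx gy hdisj hpw X0 Y0 hX0 hXm hY0 hYm
  have hlarge : ∀ A : ℝ, ∃ s : ℝ, A ≤ s ∧ pw s x < pw s y := by
    intro A
    obtain ⟨s, hs, hlt⟩ := large_of_max x' y' gx gy X0 Y0 hX0 hXm hY0 hXY A
    refine ⟨s, hs, ?_⟩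
    rw [ex, ey, pw_add, pw_add]
    linarith
  have hJ : ∀ r, J r y - J r x = J r y' - J r x' := by
    intro r
    rw [ex, ey, J_add, J_add]
    ring
  have h1 : ∀ r : ℝ, 0 < r → J r x' < J r y' := by
    intro r hr
    have := strict_pos hx hy sx sy h hlarge r hr
    have := hJ r
    linarith
  have hcard := card_le hx hy sx sy h
  have hcards : x.card = x'.card + z.card := by
    have := congrArg Multiset.card ex
    rwa [Multiset.card_add] at this
  have hcards' : y.card = y'.card + z.card := by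
    have := congrArg Multiset.card ey
    rwa [Multiset.card_add] at this
  have h2 : y'.card ≤ x'.card := by omega
  have h3 : x'.card = y'.card → ∀ r : ℝ, r ≤ 0 → J r x' < J r y' := by
    intro hc r hr
    have h22 : pw 2 x < pw 2 y := by
      have g1 := strict_pos hx hy sx sy h hlarge 2 (by norm_num)
      rw [J_eq_pw 2 (by norm_num) (by norm_num), J_eq_pw 2 (by norm_num) (by norm_num)] at g1
      exact (div_lt_div_iff_of_pos_right (by norm_num)).1 g1
    have := strict_nonpos hx hy sx sy h (by omega) h22 r hr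
    have := hJ r
    linarith
  have hmin : x'.card = y'.card → ∃ X0 ∈ x', ∃ Y0 ∈ y', (∀ a ∈ x', X0 ≤ a) ∧ Y0 < X0 := by
    intro hc
    obtain ⟨X1, hX1, hX1m⟩ := exists_min x' hx'0
    obtain ⟨Y1, hY1, hY1m⟩ := exists_min y' hy'0
    refine ⟨X1, hX1, Y1, hY1, hX1m, ?_⟩
    apply min_lt x' y' gx gy hdisj _ X1 Y1 hX1 hX1m hY1 hY1m
    intro s hs
    have g1 := h3 hc s hs.le
    rw [J_eq_pw s hs.ne (by linarith), J_eq_pw s hs.ne (by linarith)] at g1
    have g2 : 0 < s * (s - 1) := mul_pos_of_neg_of_neg hs (by linarith)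
    exact ((div_lt_div_iff_of_pos_right g2).1 g1).le
  obtain ⟨c, hc, hc1, hcW⟩ := exists_catalyst x' y' gx gy hsum h1 h2 h3 hmin X0 Y0 hX0 hXm hY0 hXY
  refine ⟨c, hc, hc1, fun t => ?_⟩
  have hcp : ∀ b ∈ c, 0 < b := fun b hb => (hc b hb).1
  have g := hcW t
  rw [W_mulM _ _ hcp, W_mulM _ _ hcp] at g ⊢
  have e1 : ∀ b, W x (t + Real.log b) = W x' (t + Real.log b) + W z (t + Real.log b) := by
    intro b; rw [ex, W_add]
  have e2 : ∀ b, W y (t + Real.log b) = W y' (t + Real.log b) + W z (t + Real.log b) := by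
    intro b; rw [ey, W_add]
  simp only [e1, e2]
  rw [Multiset.sum_map_add, Multiset.sum_map_add]
  linarith

end Pool.Agent.Q19.LC
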